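import Pool.Agent.H84.NT.Main

/-!
# The third exactness
-/

set_option autoImplicit false
set_option linter.unusedSectionVars false

open Set Filter Topology Metric Function
open scoped ContDiff NNReal

noncomputable section

namespace Pool.Agent.H84.NT

open Pool.Agent.X277.Sy Pool.Agent.H84.PP

variable {k n : ℕ}

theorem le_norm_of {V W : Type} [NormedAddCommGroup V] [NormedSpace ℝ V] [NormedAddCommGroup W]
    [NormedSpace ℝ W] (e : V ≃L[ℝ] W) (r : ℝ) : ∃ r' : ℝ, ∀ v, r' ≤ ‖v‖ → r ≤ ‖e v‖ := by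
  set b := ‖(e.symm : W →L[ℝ] V)‖ with hb
  have hb0 : 0 ≤ b := norm_nonneg _
  refine ⟨b * |r| + 1, fun v hv => ?_⟩
  by_contra hcon
  push Not at hcon
  have h4 : ‖v‖ ≤ b * ‖e v‖ := by
    have := (e.symm : W →L[ℝ] V).le_opNorm (e v)
    simpa using this
  have h5 : b * ‖e v‖ ≤ b * |r| :=
    mul_le_mul_of_nonneg_left (hcon.le.trans (le_abs_self r)) hb0
  linarith

theorem trivial_of_null {Q : Type} [NormedAddCommGroup Q] [NormedSpace ℝ Q]
    [FiniteDimensional ℝ Q] (hQ : Module.finrank ℝ Q = k)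
    (h : ∀ (S : Q → SympCt n) (r : ℝ), IsSmoothFamily S → (∀ q, r ≤ ‖q‖ → S q = 1) →
      (∀ q, SupportedIn (closedBall 0 r) (S q).map) →
      ∃ F : ℝ × Q → SympCt n, IsSmoothFamily F ∧ (∀ q, F (0, q) = S q) ∧ (∀ q, F (1, q) = 1) ∧
        ∃ r' : ℝ, (∀ t q, r' ≤ ‖q‖ → F (t, q) = 1) ∧
          ∀ p, SupportedIn (closedBall 0 r') (F p).map) : PiTrivial k n := by
  intro f
  let e : Q ≃L[ℝ] EuclideanSpace ℝ (Fin k) := ContinuousLinearEquiv.ofFinrankEq (by simp [hQ])
  obtain ⟨r, hr1, hr2⟩ := f.bounded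
  obtain ⟨r', hr'⟩ := le_norm_of e r
  obtain ⟨F, F1, F2, F3, ρ, F4, F5⟩ := h (fun q => f.fam (e q)) (max r r')
    (f.smooth.comp e.contDiff) (fun q hq => hr1 _ (hr' q ((le_max_right _ _).trans hq)))
    (fun q => supp_mono (closedBall_subset_closedBall (le_max_left _ _)) (hr2 _))
  obtain ⟨ρ', hρ'⟩ := le_norm_of e.symm ρ
  refine ⟨closedBall 0 ρ, isCompact_closedBall _ _, fun p => F (p.1, e.symm p.2),
    F1.comp (contDiff_fst.prodMk (e.symm.contDiff.comp contDiff_snd)), fun s => ?_,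
    fun s => F3 _, ⟨ρ', fun t s hs => F4 t _ (hρ' s hs)⟩, fun p => F5 _⟩
  show F (0, e.symm s) = f.fam s
  rw [F2, e.apply_symm_apply]

/-- **The third exactness.** -/
theorem third (hn : 0 < n) (h1 : PiTrivial k (n + 1)) (h2 : NTTrivial (k + 1) n) :
    PiTrivial (k + 2) n := by
  refine trivial_of_null (Q := ℝ × (EuclideanSpace ℝ (Fin k) × ℝ)) (by
    rw [Module.finrank_prod, Module.finrank_prod, Module.finrank_self, finrank_euclideanSpace,
      Fintype.card_fin]
    ring) ?_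
  intro χ r₀ hχ hχ1' hχ2'
  set R : ℝ := max r₀ 1 with hR
  have hR1 : 1 ≤ R := le_max_right _ _
  have hχ1 : ∀ q, R ≤ ‖q‖ → χ q = 1 := fun q hq => hχ1' q ((le_max_left _ _).trans hq)
  have hχ2 : ∀ q, SupportedIn (closedBall 0 R) (χ q).map := fun q =>
    supp_mono (closedBall_subset_closedBall (le_max_left _ _)) (hχ2' q)
  have hnorm : ∀ (t : ℝ) (q : EuclideanSpace ℝ (Fin k) × ℝ), ‖(t, q)‖ = max |t| ‖q‖ :=
    fun t q => rfl
  have hχt : ∀ (t : ℝ) (q : EuclideanSpace ℝ (Fin k) × ℝ), R ≤ |t| → χ (t, q) = 1 := fun t q ht =>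
    hχ1 _ (by rw [hnorm]; exact ht.trans (le_max_left _ _))
  have hχq : ∀ (t : ℝ) (q : EuclideanSpace ℝ (Fin k) × ℝ), R ≤ ‖q‖ → χ (t, q) = 1 := fun t q ht =>
    hχ1 _ (by rw [hnorm]; exact ht.trans (le_max_right _ _))
  let σ : ℝ → ℝ := Real.smoothTransition
  have hσ : ContDiff ℝ ∞ σ := Real.smoothTransition.contDiff
  have σ0 : ∀ x, x ≤ 0 → σ x = 0 := fun x hx => Real.smoothTransition.zero_of_nonpos hx
  have σ1 : ∀ x, 1 ≤ x → σ x = 1 := fun x hx => Real.smoothTransition.one_of_one_le hx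
  have σn : ∀ x, 0 ≤ σ x := Real.smoothTransition.nonneg
  have σl : ∀ x, σ x ≤ 1 := Real.smoothTransition.le_one
  -- the path of loops
  let F : ℝ × (EuclideanSpace ℝ (Fin k) × ℝ) → SympCt n := fun p => χ ((2 * p.1 - 1) * R, p.2)
  have hF : IsSmoothFamily F := hχ.comp
    ((((contDiff_const.mul contDiff_fst).sub contDiff_const).mul contDiff_const).prodMk
      contDiff_snd)
  have hF0 : ∀ q, F (0, q) = 1 := fun q => hχt _ q (by
    rw [show (2 * 0 - 1) * R = -R by ring, abs_neg]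
    exact le_abs_self R)
  have hF1 : ∀ q, F (1, q) = 1 := fun q => hχt _ q (by
    rw [show (2 * 1 - 1) * R = R by ring]
    exact le_abs_self R)
  obtain ⟨G, G1, ⟨ρ, G2⟩, G3, G4⟩ := lift' hn (scattering_trivial (k := k) (n := n)) hF
    (fun q => hF0 q) (fun t q hq => hχq _ q hq) (fun p => hχ2 _)
  have hA : ContDiff ℝ ∞ (fun p : EuclideanSpace ℝ (Fin k) × E (n + 1) =>
      ((((1 : ℝ), p.1), p.2) : (ℝ × EuclideanSpace ℝ (Fin k)) × E (n + 1))) :=
    (contDiff_const.prodMk contDiff_fst).prodMk contDiff_snd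
  let P' : NTFam k n := ⟨G 1, G1.comp hA, fun s => (G4 1 s).1, ρ, fun s z hz => G2 1 s z hz⟩
  have hP' : HasScattering P' (trivialLoop k n) := by
    intro s τ
    show IsScattering (G 1 s) τ ↔ _
    rw [(G4 1 s).2 τ, Real.smoothTransition.one]
    simp only [hF1]
    exact Iff.rfl
  obtain ⟨φ, hφ⟩ := (scattering_trivial_iff hn P').1 hP'
  have hφ' : ∀ s z, px ((φ.fam s).map z) = G 1 s z := fun s z =>
    congrFun (congrFun (congrArg NTFam.f hφ) s) z
  obtain ⟨L, hL, H, H1, H2, H3, ⟨ρ', H4⟩, H5⟩ := h1 φ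
  obtain ⟨rL, hrL⟩ := hL.isBounded.subset_closedBall (0 : E (n + 1))
  obtain ⟨ρφ, hρφ, -⟩ := φ.bounded
  -- the concatenation
  have hfst : ContDiff ℝ ∞ (fun p : (ℝ × EuclideanSpace ℝ (Fin k)) × E (n + 1) => p.1.1) :=
    contDiff_fst.comp contDiff_fst
  have hsnd : ContDiff ℝ ∞ (fun p : (ℝ × EuclideanSpace ℝ (Fin k)) × E (n + 1) => p.1.2) :=
    contDiff_snd.comp contDiff_fst
  have ha : ContDiff ℝ ∞ (fun p : (ℝ × EuclideanSpace ℝ (Fin k)) × E (n + 1) =>
      (((σ (2 * p.1.1), p.1.2), p.2) : (ℝ × EuclideanSpace ℝ (Fin k)) × E (n + 1))) :=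
    ((hσ.comp (contDiff_const.mul hfst)).prodMk hsnd).prodMk contDiff_snd
  have hb : ContDiff ℝ ∞ (fun p : (ℝ × EuclideanSpace ℝ (Fin k)) × E (n + 1) =>
      (((σ (2 * p.1.1 - 1), p.1.2), p.2) : (ℝ × EuclideanSpace ℝ (Fin k)) × E (n + 1))) :=
    ((hσ.comp ((contDiff_const.mul hfst).sub contDiff_const)).prodMk hsnd).prodMk contDiff_snd
  have hc : ContDiff ℝ ∞ (fun p : (ℝ × EuclideanSpace ℝ (Fin k)) × E (n + 1) =>
      ((((1 : ℝ), p.1.2), p.2) : (ℝ × EuclideanSpace ℝ (Fin k)) × E (n + 1))) :=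
    (contDiff_const.prodMk hsnd).prodMk contDiff_snd
  let K : ℝ × EuclideanSpace ℝ (Fin k) → E (n + 1) → ℝ := fun p z =>
    G (σ (2 * p.1)) p.2 z + (px ((H (σ (2 * p.1 - 1), p.2)).map z) - G 1 p.2 z)
  have hKs : ContDiff ℝ ∞ (fun p : (ℝ × EuclideanSpace ℝ (Fin k)) × E (n + 1) => K p.1 p.2) :=
    (G1.comp ha).add ((px.contDiff.comp (ContDiff.comp (show ContDiff ℝ ∞ _ from H1) hb)).sub
      (G1.comp hc))
  have hK1 : ∀ t s, t ≤ 1 / 2 → K (t, s) = G (σ (2 * t)) s := by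
    intro t s ht
    funext z
    show G (σ (2 * t)) s z + (px ((H (σ (2 * t - 1), s)).map z) - G 1 s z) = _
    rw [σ0 (2 * t - 1) (by linarith), H2, hφ']
    ring
  have hK2 : ∀ t s, 1 / 2 ≤ t → K (t, s) = fun z => px ((H (σ (2 * t - 1), s)).map z) := by
    intro t s ht
    funext z
    show G (σ (2 * t)) s z + (px ((H (σ (2 * t - 1), s)).map z) - G 1 s z) = _
    rw [σ1 (2 * t) (by linarith)]
    ring
  have hKnt : ∀ p, NonTrapping (K p) := by
    rintro ⟨t, s⟩
    rcases le_total t (1 / 2) with ht | ht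
    · rw [hK1 t s ht]
      exact (G4 _ s).1
    · rw [hK2 t s ht]
      obtain ⟨f, hf⟩ := exists_sph (H (σ (2 * t - 1), s))
      rw [← hf]
      exact (ofSympNT f).nontrapping 0
  have hKsc : ∀ t s (τ : ℝ → SympCt n), IsScattering (K (t, s)) τ ↔
      ∀ x, τ x = F (σ (σ (2 * t)), (s, x)) := by
    intro t s τ
    rcases le_total t (1 / 2) with ht | ht
    · rw [hK1 t s ht]
      exact (G4 _ s).2 τ
    · rw [hK2 t s ht, σ1 (2 * t) (by linarith), σ1 1 le_rfl]
      simp only [hF1]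
      obtain ⟨f, hf⟩ := exists_sph (H (σ (2 * t - 1), s))
      have h3 := (scattering_trivial_iff hn (ofSympNT f)).2 ⟨f, rfl⟩ 0 τ
      rw [← hf]
      exact h3
  obtain ⟨M, hM1, hM2⟩ : ∃ M : ℝ, (∀ t s z, (M ≤ |t| ∨ M ≤ ‖s‖) → K (t, s) z = px z) ∧
      ∀ p z, M ≤ ‖z‖ → K p z = px z := by
    refine ⟨max (max ρ ρ') (max (rL + 1) 1), fun t s z h => ?_, fun p z h => ?_⟩
    · rcases h with h | h
      · have h3 : 1 ≤ |t| := ((le_max_right _ _).trans (le_max_right _ _)).trans h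
        rcases le_total 0 t with h4 | h4
        · rw [abs_of_nonneg h4] at h3
          rw [hK2 t s (by linarith), σ1 (2 * t - 1) (by linarith), H3]
          rfl
        · rw [hK1 t s (by linarith), σ0 (2 * t) (by linarith), G3]
          rfl
      · have h3 : ρ ≤ ‖s‖ := ((le_max_left _ _).trans (le_max_left _ _)).trans h
        have h4 : ρ' ≤ ‖s‖ := ((le_max_right _ _).trans (le_max_left _ _)).trans h
        rcases le_total t (1 / 2) with ht | ht
        · rw [hK1 t s ht]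
          exact G2 _ s z (Or.inl h3)
        · rw [hK2 t s ht, H4 _ s h4]
          rfl
    · have h3 : ρ ≤ ‖z‖ := ((le_max_left _ _).trans (le_max_left _ _)).trans h
      have h4 : rL + 1 ≤ ‖z‖ := ((le_max_left _ _).trans (le_max_right _ _)).trans h
      obtain ⟨t, s⟩ := p
      rcases le_total t (1 / 2) with ht | ht
      · rw [hK1 t s ht]
        exact G2 _ s z (Or.inr h3)
      · rw [hK2 t s ht]
        show px ((H (σ (2 * t - 1), s)).map z) = px z
        rw [far_fix (supp_mono hrL (H5 _)) (by linarith)]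
  -- the spheroid
  let e : (ℝ × EuclideanSpace ℝ (Fin k)) ≃L[ℝ] EuclideanSpace ℝ (Fin (k + 1)) :=
    ContinuousLinearEquiv.ofFinrankEq (by
      rw [Module.finrank_prod, Module.finrank_self, finrank_euclideanSpace,
        finrank_euclideanSpace, Fintype.card_fin, Fintype.card_fin]
      ring)
  obtain ⟨M', hM'⟩ := le_norm_of e.symm M
  let P : NTFam (k + 1) n :=
    { f := fun s => K (e.symm s)
      smooth := hKs.comp ((e.symm.contDiff.comp contDiff_fst).prodMk contDiff_snd)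
      nontrapping := fun s => hKnt _
      bounded := by
        refine ⟨max M M', fun s z hz => ?_⟩
        rcases hz with hz | hz
        · have h3 := hM' s ((le_max_right _ _).trans hz)
          have h4 : ‖e.symm s‖ = max |(e.symm s).1| ‖(e.symm s).2‖ := rfl
          rw [h4] at h3
          exact hM1 _ _ z (le_max_iff.1 h3)
        · exact hM2 _ z ((le_max_left _ _).trans hz) }
  obtain ⟨S, hS⟩ := exists_scattering hn P
  have hSF : ∀ t s x, S.fam (e (t, s), x) = F (σ (σ (2 * t)), (s, x)) := by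
    intro t s x
    have h3 := (hKsc t s (fun x => F (σ (σ (2 * t)), (s, x)))).2 fun x => rfl
    have h4 : P.f (e (t, s)) = K (t, s) := by
      show K (e.symm (e (t, s))) = K (t, s)
      rw [e.symm_apply_apply]
    rw [← h4] at h3
    exact ((hS _ _).1 h3 x).symm
  obtain ⟨D, D1, D2, D3, rD, D4, D5⟩ := loopHomotopic_of hn hS
    (scattering_trivial (k := k + 1) (n := n)) (h2 P)
  obtain ⟨rD', hrD'⟩ := le_norm_of e rD
  obtain ⟨rS, hS1, hS2⟩ := S.bounded
  obtain ⟨rS', hrS'⟩ := le_norm_of e rS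
  -- the final homotopy
  let c : ℝ × ℝ → ℝ := fun p => (1 - σ p.1) * p.2 + σ p.1 * ((2 * σ (σ (2 * p.2)) - 1) * R)
  have hcs : ContDiff ℝ ∞ c :=
    ((contDiff_const.sub (hσ.comp contDiff_fst)).mul contDiff_snd).add
      ((hσ.comp contDiff_fst).mul (((contDiff_const.mul (hσ.comp (hσ.comp
        (contDiff_const.mul contDiff_snd)))).sub contDiff_const).mul contDiff_const))
  have hcbig : ∀ u t, R + 1 ≤ |t| → R ≤ |c (u, t)| := by
    intro u t ht
    have h3 := σn u
    have h4 := σl u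
    rcases le_total 0 t with h5 | h5
    · rw [abs_of_nonneg h5] at ht
      have h6 : c (u, t) = (1 - σ u) * t + σ u * R := by
        show (1 - σ u) * t + σ u * ((2 * σ (σ (2 * t)) - 1) * R) = _
        rw [σ1 (2 * t) (by linarith), σ1 1 le_rfl]
        ring
      rw [h6]
      refine le_trans ?_ (le_abs_self _)
      nlinarith
    · rw [abs_of_nonpos h5] at ht
      have h6 : c (u, t) = -((1 - σ u) * (-t) + σ u * R) := by
        show (1 - σ u) * t + σ u * ((2 * σ (σ (2 * t)) - 1) * R) = _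
        rw [σ0 (2 * t) (by linarith), σ0 0 le_rfl]
        ring
      rw [h6, abs_neg]
      refine le_trans ?_ (le_abs_self _)
      nlinarith
  have hproj : ContDiff ℝ ∞ (fun p : ℝ × (ℝ × (EuclideanSpace ℝ (Fin k) × ℝ)) =>
      ((e (p.2.1, p.2.2.1), p.2.2.2) : EuclideanSpace ℝ (Fin (k + 1)) × ℝ)) :=
    (e.contDiff.comp ((contDiff_fst.comp contDiff_snd).prodMk
      (contDiff_fst.comp (contDiff_snd.comp contDiff_snd)))).prodMk
      (contDiff_snd.comp (contDiff_snd.comp contDiff_snd))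
  refine ⟨fun p => χ (c (p.1, p.2.1), p.2.2) * (S.fam (e (p.2.1, p.2.2.1), p.2.2.2))⁻¹ *
    D (p.1, (e (p.2.1, p.2.2.1), p.2.2.2)), ?_, ?_, ?_, ?_⟩
  · refine ((hχ.comp ?_).mul (S.smooth.comp hproj).inv).mul (D1.comp (contDiff_fst.prodMk hproj))
    exact (hcs.comp (contDiff_fst.prodMk (contDiff_fst.comp contDiff_snd))).prodMk
      (contDiff_snd.comp contDiff_snd)
  · rintro ⟨t, s, x⟩
    show χ (c (0, t), (s, x)) * (S.fam (e (t, s), x))⁻¹ * D (0, (e (t, s), x)) = _
    rw [D2, inv_mul_cancel_right]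
    have h3 : c (0, t) = t := by
      show (1 - σ 0) * t + σ 0 * ((2 * σ (σ (2 * t)) - 1) * R) = t
      rw [σ0 0 le_rfl]
      ring
    rw [h3]
  · rintro ⟨t, s, x⟩
    show χ (c (1, t), (s, x)) * (S.fam (e (t, s), x))⁻¹ * D (1, (e (t, s), x)) = _
    rw [D3, hSF]
    have h3 : c (1, t) = (2 * σ (σ (2 * t)) - 1) * R := by
      show (1 - σ 1) * t + σ 1 * ((2 * σ (σ (2 * t)) - 1) * R) = _
      rw [σ1 1 le_rfl]
      ring
    rw [h3]
    show χ ((2 * σ (σ (2 * t)) - 1) * R, (s, x)) *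
      (χ ((2 * σ (σ (2 * t)) - 1) * R, (s, x)))⁻¹ * 1 = 1
    rw [mul_inv_cancel, one_mul]
  · refine ⟨max (max (R + 1) (max rD rS)) (max rD' rS'), ?_, ?_⟩
    · rintro u ⟨t, s, x⟩ hq
      have n1 : ‖((t, s, x) : ℝ × (EuclideanSpace ℝ (Fin k) × ℝ))‖ = max |t| (max ‖s‖ |x|) := rfl
      have n2 : ‖((t, s) : ℝ × EuclideanSpace ℝ (Fin k))‖ = max |t| ‖s‖ := rfl
      have n3 : ‖((e (t, s), x) : EuclideanSpace ℝ (Fin (k + 1)) × ℝ)‖ = max ‖e (t, s)‖ |x| := rfl
      have n4 : ‖((s, x) : EuclideanSpace ℝ (Fin k) × ℝ)‖ = max ‖s‖ |x| := rfl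
      rw [n1] at hq
      have k1 : R + 1 ≤ max |t| (max ‖s‖ |x|) := ((le_max_left _ _).trans (le_max_left _ _)).trans hq
      have k2 : rD ≤ max |t| (max ‖s‖ |x|) :=
        (((le_max_left _ _).trans (le_max_right _ _)).trans (le_max_left _ _)).trans hq
      have k3 : rS ≤ max |t| (max ‖s‖ |x|) :=
        (((le_max_right _ _).trans (le_max_right _ _)).trans (le_max_left _ _)).trans hq
      have k4 : rD' ≤ max |t| (max ‖s‖ |x|) :=
        ((le_max_left _ _).trans (le_max_right _ _)).trans hq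
      have k5 : rS' ≤ max |t| (max ‖s‖ |x|) :=
        ((le_max_right _ _).trans (le_max_right _ _)).trans hq
      have c1 : χ (c (u, t), (s, x)) = 1 := by
        rcases le_max_iff.1 k1 with h3 | h3
        · exact hχt _ _ (hcbig u t h3)
        · exact hχq _ _ (by rw [n4]; linarith)
      have hmax : ∀ r r' : ℝ, (∀ v : ℝ × EuclideanSpace ℝ (Fin k), r' ≤ ‖v‖ → r ≤ ‖e v‖) →
          r ≤ max |t| (max ‖s‖ |x|) → r' ≤ max |t| (max ‖s‖ |x|) →
          r ≤ ‖((e (t, s), x) : EuclideanSpace ℝ (Fin (k + 1)) × ℝ)‖ := by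
        intro r r' h h' h''
        rw [n3]
        by_cases h3 : max |t| ‖s‖ ≤ |x|
        · have h4 : max |t| (max ‖s‖ |x|) ≤ |x| :=
            max_le ((le_max_left _ _).trans h3) (max_le ((le_max_right _ _).trans h3) le_rfl)
          exact (h'.trans h4).trans (le_max_right _ _)
        · push Not at h3
          have h4 : max |t| (max ‖s‖ |x|) ≤ max |t| ‖s‖ :=
            max_le (le_max_left _ _) (max_le (le_max_right _ _) h3.le)
          exact (h (t, s) (by rw [n2]; exact h''.trans h4)).trans (le_max_left _ _)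
      have c2 := hmax rS rS' hrS' k3 k5
      have c3 := hmax rD rD' hrD' k2 k4
      show χ (c (u, t), (s, x)) * (S.fam (e (t, s), x))⁻¹ * D (u, (e (t, s), x)) = 1
      rw [c1, hS1 _ c2, D4 u _ c3, inv_one, one_mul, one_mul]
    · rintro ⟨u, t, s, x⟩
      have m1 : R ≤ max (max (R + 1) (max rD rS)) (max rD' rS') :=
        (by linarith : R ≤ R + 1).trans ((le_max_left _ _).trans (le_max_left _ _))
      have m2 : rD ≤ max (max (R + 1) (max rD rS)) (max rD' rS') :=
        ((le_max_left _ _).trans (le_max_right _ _)).trans (le_max_left _ _)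
      have m3 : rS ≤ max (max (R + 1) (max rD rS)) (max rD' rS') :=
        ((le_max_right _ _).trans (le_max_right _ _)).trans (le_max_left _ _)
      exact supp_mul (supp_mul (supp_mono (closedBall_subset_closedBall m1) (hχ2 _))
        (supp_inv (supp_mono (closedBall_subset_closedBall m3) (hS2 _))))
        (supp_mono (closedBall_subset_closedBall m2) (D5 _))

end Pool.Agent.H84.NT
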