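import Pool.Agent.H84.NT.Main
import Pool.Agent.H84.NT.Third

/-!
# Countability
-/

set_option autoImplicit false
set_option linter.unusedSectionVars false

open Set Filter Topology Metric Function
open scoped ContDiff NNReal

noncomputable section

namespace Pool.Agent.H84.NT

open Pool.Agent.X277.Sy Pool.Agent.H84.PP

variable {k n : ℕ}

theorem nonTrapping_comp {f : E (n + 1) → ℝ} (hf : Differentiable ℝ f) (h : NonTrapping f)
    {Ψ : E (n + 1) → E (n + 1)} (hΨ : IsSymplectomorphism Ψ) :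
    NonTrapping (fun z => f (Ψ z)) := by
  intro γ hγ hb
  refine h (fun t => Ψ (γ t)) (fun t => ?_) ?_
  · have h1 : HasFDerivAt Ψ (fderiv ℝ Ψ (γ t)) (γ t) :=
      (hΨ.smooth.differentiable (by simp) _).hasFDerivAt
    have h2 := h1.comp_hasDerivAt t (hγ t)
    refine h2.congr_deriv ?_
    rw [ham_eq, ham_eq, XH_comp hΨ hf]
  · have h1 : IsCompact (closure (range γ)) := hb.isCompact_closure
    refine ((h1.image hΨ.smooth.continuous).isBounded).subset ?_
    rintro _ ⟨t, rfl⟩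
    exact ⟨γ t, subset_closure ⟨t, rfl⟩, rfl⟩

theorem exists_comp (P : NTFam k n) (φ : Spheroid k (n + 1)) :
    ∃ P' : NTFam k n, ∀ s z, P'.f s z = P.f s ((φ.fam s).map z) := by
  obtain ⟨r, hr⟩ := P.bounded
  obtain ⟨r', h1, h2⟩ := φ.bounded
  have hA : ContDiff ℝ ∞ (fun p : EuclideanSpace ℝ (Fin k) × E (n + 1) =>
      (p.1, (φ.fam p.1).map p.2)) :=
    contDiff_fst.prodMk (show ContDiff ℝ ∞ _ from φ.smooth)
  refine ⟨⟨fun s z => P.f s ((φ.fam s).map z), P.smooth.comp hA, fun s =>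
    nonTrapping_comp ((slice_smooth P.smooth s).differentiable (by simp)) (P.nontrapping s)
      (φ.fam s).isSymp, max r (r' + 1), fun s z hz => ?_⟩, fun s z => rfl⟩
  rcases hz with hz | hz
  · rw [h1 s (by linarith [(le_max_right r (r' + 1)).trans hz])]
    exact hr s z (Or.inl ((le_max_left _ _).trans hz))
  · rw [far_fix (h2 s) (by linarith [(le_max_right r (r' + 1)).trans hz])]
    exact hr s z (Or.inr ((le_max_left _ _).trans hz))

theorem comp_homotopic (P : NTFam k n) {φ ψ : Spheroid k (n + 1)} (h : Homotopic φ ψ)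
    {P' P'' : NTFam k n} (h1 : ∀ s z, P'.f s z = P.f s ((φ.fam s).map z))
    (h2 : ∀ s z, P''.f s z = P.f s ((ψ.fam s).map z)) : NTHomotopic P' P'' := by
  obtain ⟨K, hK, F, F1, F2, F3, ⟨r, F4⟩, F5⟩ := h
  obtain ⟨r', hr'⟩ := hK.isBounded.subset_closedBall (0 : E (n + 1))
  obtain ⟨ρ, hρ⟩ := P.bounded
  have hA : ContDiff ℝ ∞ (fun p : (ℝ × EuclideanSpace ℝ (Fin k)) × E (n + 1) =>
      (p.1.2, (F p.1).map p.2)) :=
    (contDiff_snd.comp contDiff_fst).prodMk (show ContDiff ℝ ∞ _ from F1)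
  refine ⟨fun t s z => P.f s ((F (t, s)).map z), P.smooth.comp hA, fun t s =>
    nonTrapping_comp ((slice_smooth P.smooth s).differentiable (by simp)) (P.nontrapping s)
      (F (t, s)).isSymp, ⟨max ρ (max r (r' + 1)), fun t s z hz => ?_⟩, ?_, ?_⟩
  · show P.f s ((F (t, s)).map z) = z (0, 0)
    rcases hz with hz | hz
    · rw [F4 t s (((le_max_left _ _).trans (le_max_right _ _)).trans hz)]
      exact hρ s z (Or.inl ((le_max_left _ _).trans hz))
    · rw [far_fix (supp_mono hr' (F5 (t, s))) (by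
        linarith [((le_max_right r (r' + 1)).trans (le_max_right ρ _)).trans hz])]
      exact hρ s z (Or.inr ((le_max_left _ _).trans hz))
  · funext s z
    show P.f s ((F (0, s)).map z) = _
    rw [F2, h1]
  · funext s z
    show P.f s ((F (1, s)).map z) = _
    rw [F3, h2]

theorem countable_loops (k n : ℕ) : ∃ T : Set (LoopSph k n), T.Countable ∧
    ∀ S : LoopSph k n, ∃ S' ∈ T, LoopHomotopic S S' := by
  obtain ⟨U, hU, hU2⟩ := countable_spheroids (k + 1) n
  let e : (EuclideanSpace ℝ (Fin k) × ℝ) ≃L[ℝ] EuclideanSpace ℝ (Fin (k + 1)) :=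
    ContinuousLinearEquiv.ofFinrankEq (by
      rw [Module.finrank_prod, Module.finrank_self, finrank_euclideanSpace,
        finrank_euclideanSpace, Fintype.card_fin, Fintype.card_fin])
  have hto : ∀ S : LoopSph k n, ∃ f : Spheroid (k + 1) n, ∀ q, f.fam (e q) = S.fam q := by
    intro S
    obtain ⟨r, h1, h2⟩ := S.bounded
    obtain ⟨r', hr'⟩ := le_norm_of e.symm r
    refine ⟨⟨fun s => S.fam (e.symm s), S.smooth.comp e.symm.contDiff, max r r',
      fun s hs => h1 _ (hr' s ((le_max_right _ _).trans hs)), fun s => supp_mono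
        (closedBall_subset_closedBall (le_max_left _ _)) (h2 _)⟩, fun q => ?_⟩
    show S.fam (e.symm (e q)) = S.fam q
    rw [e.symm_apply_apply]
  have hfrom : ∀ f : Spheroid (k + 1) n, ∃ S : LoopSph k n, ∀ q, S.fam q = f.fam (e q) := by
    intro f
    obtain ⟨r, h1, h2⟩ := f.bounded
    obtain ⟨r', hr'⟩ := le_norm_of e r
    exact ⟨⟨fun q => f.fam (e q), f.smooth.comp e.contDiff, max r r',
      fun s hs => h1 _ (hr' s ((le_max_right _ _).trans hs)), fun s => supp_mono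
        (closedBall_subset_closedBall (le_max_left _ _)) (h2 _)⟩, fun q => rfl⟩
  choose c hc using hfrom
  refine ⟨c '' U, hU.image c, fun S => ?_⟩
  obtain ⟨f, hf⟩ := hto S
  obtain ⟨g, hg, hgf⟩ := hU2 f
  obtain ⟨K, hK, F, F1, F2, F3, ⟨r, F4⟩, F5⟩ := hgf.symm
  obtain ⟨r', hr'⟩ := hK.isBounded.subset_closedBall (0 : E n)
  obtain ⟨ρ, hρ⟩ := le_norm_of e r
  refine ⟨c g, ⟨g, hg, rfl⟩, fun p => F (p.1, e p.2),
    F1.comp (contDiff_fst.prodMk (e.contDiff.comp contDiff_snd)), fun q => ?_, fun q => ?_,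
    max ρ r', fun t q hq => F4 t _ (hρ q ((le_max_left _ _).trans hq)), fun p => supp_mono
      (hr'.trans (closedBall_subset_closedBall (le_max_right _ _))) (F5 _)⟩
  · show F (0, e q) = S.fam q
    rw [F2, hf]
  · show F (1, e q) = (c g).fam q
    rw [F3, hc]

/-- **Countably many classes of spheroids of nontrapping functions.** -/
theorem countable_nt (hn : 0 < n) (k : ℕ) :
    ∃ u : ℕ → NTFam k n, ∀ P, ∃ i, NTHomotopic P (u i) := by
  classical
  obtain ⟨T, hT, hT2⟩ := countable_loops k n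
  obtain ⟨U, hU, hU2⟩ := countable_spheroids k (n + 1)
  let P₀ : NTFam k n := ofSympNT (trivialSpheroid k (n + 1))
  have hp : ∀ S : LoopSph k n, ∃ P : NTFam k n, (∃ P', HasScattering P' S) →
      HasScattering P S := by
    intro S
    by_cases h : ∃ P', HasScattering P' S
    · obtain ⟨P', hP'⟩ := h
      exact ⟨P', fun _ => hP'⟩
    · exact ⟨P₀, fun h' => absurd h' h⟩
  choose p hp using hp
  choose c hc using fun (S : LoopSph k n) (φ : Spheroid k (n + 1)) => exists_comp (p S) φ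
  have hV : ((fun q : LoopSph k n × Spheroid k (n + 1) => c q.1 q.2) '' (T ×ˢ U)).Countable :=
    (hT.prod hU).image _
  have hmem : ∀ P, ∃ P' ∈ (fun q : LoopSph k n × Spheroid k (n + 1) => c q.1 q.2) '' (T ×ˢ U),
      NTHomotopic P P' := by
    intro P
    obtain ⟨S, hS⟩ := exists_scattering hn P
    obtain ⟨S', hS'T, hSS'⟩ := hT2 S
    obtain ⟨P'', h1, h2⟩ := lift hn hS hSS'
    obtain ⟨φ, hφ⟩ := (same_scattering hn (hp S' ⟨P'', h1⟩) h1).1 rfl
    obtain ⟨ψ, hψ, hψφ⟩ := hU2 φ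
    exact ⟨_, ⟨(S', ψ), ⟨hS'T, hψ⟩, rfl⟩,
      h2.trans (comp_homotopic (p S') hψφ.symm hφ (hc S' ψ))⟩
  obtain ⟨u, hu⟩ := hV.exists_eq_range (by
    obtain ⟨P', h, -⟩ := hmem P₀
    exact ⟨P', h⟩)
  refine ⟨u, fun P => ?_⟩
  obtain ⟨P', h1, h2⟩ := hmem P
  rw [hu] at h1
  obtain ⟨i, rfl⟩ := h1
  exact ⟨i, h2⟩

end Pool.Agent.H84.NT
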