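import Pool.Agent.H84.PP.Bracket
import Pool.Agent.H84.Sy.SphDefs

/-!
# Spheroids of nontrapping functions: definitions
-/

set_option autoImplicit false

open Set Filter Topology Metric Function
open scoped ContDiff NNReal

noncomputable section

namespace Pool.Agent.H84.NT

open Pool.Agent.X277.Sy

/-- The Hamiltonian vector field of `f`: `dx_i/dt = -∂f/∂y_i`, `dy_i/dt = ∂f/∂x_i`. -/
def ham {m : ℕ} (f : E m → ℝ) (z : E m) : E m :=
  WithLp.toLp 2 (fun p : Fin m × Fin 2 =>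
    if p.2 = 0 then -fderiv ℝ f z (EuclideanSpace.single (p.1, 1) 1)
    else fderiv ℝ f z (EuclideanSpace.single (p.1, 0) 1))

/-- `γ` is an orbit of the Hamiltonian flow of `f`. -/
def IsOrbit {m : ℕ} (f : E m → ℝ) (γ : ℝ → E m) : Prop :=
  ∀ t, HasDerivAt γ (ham f (γ t)) t

/-- The function `f` is nontrapping: its Hamiltonian flow has no bounded orbits. -/
def NonTrapping {m : ℕ} (f : E m → ℝ) : Prop :=
  ∀ γ : ℝ → E m, IsOrbit f γ → ¬ Bornology.IsBounded (range γ)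

/-- A smooth `k`-spheroid of nontrapping functions on `ℝ^{2n+2}`: a smooth family of nontrapping
functions `f_s`, `s ∈ ℝ^k`, with `f_s = x_1` off a compact subset of `ℝ^k × ℝ^{2n+2}`. (The indices of
the coordinates start with `0` in Lean.) -/
@[ext] structure NTFam (k n : ℕ) where
  /-- the functions -/
  f : EuclideanSpace ℝ (Fin k) → E (n + 1) → ℝ
  smooth : ContDiff ℝ ∞ (fun p : EuclideanSpace ℝ (Fin k) × E (n + 1) => f p.1 p.2)
  nontrapping : ∀ s, NonTrapping (f s)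
  bounded : ∃ r : ℝ, ∀ s z, (r ≤ ‖s‖ ∨ r ≤ ‖z‖) → f s z = z (0, 0)

/-- Smooth homotopies of spheroids of nontrapping functions. -/
def NTHomotopic {k n : ℕ} (P P' : NTFam k n) : Prop :=
  ∃ F : ℝ → EuclideanSpace ℝ (Fin k) → E (n + 1) → ℝ,
    ContDiff ℝ ∞ (fun p : (ℝ × EuclideanSpace ℝ (Fin k)) × E (n + 1) => F p.1.1 p.1.2 p.2) ∧
    (∀ t s, NonTrapping (F t s)) ∧
    (∃ r : ℝ, ∀ t s z, (r ≤ ‖s‖ ∨ r ≤ ‖z‖) → F t s z = z (0, 0)) ∧ F 0 = P.f ∧ F 1 = P'.f

/-- The coordinates `x_2, y_2, x_3, …` -/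
def rest {n : ℕ} (z : E (n + 1)) : E n :=
  WithLp.toLp 2 (fun p : Fin n × Fin 2 => z (p.1.succ, p.2))

/-- The loop `σ` in the group of the compactly supported symplectomorphisms of `ℝ^{2n}` is the
scattering map of `f`: an orbit which comes from `(x_1, -∞, v)` goes to `(x_1, +∞, σ(x_1) v)`. -/
def IsScattering {n : ℕ} (f : E (n + 1) → ℝ) (σ : ℝ → SympCt n) : Prop :=
  ∀ γ : ℝ → E (n + 1), IsOrbit f γ → ∃ T : ℝ, ∀ t ≥ T,
    rest (γ t) = (σ (γ (-t) (0, 0))).map (rest (γ (-t)))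

/-- A smooth `k`-spheroid in the loop space of the group of the compactly supported
symplectomorphisms of `ℝ^{2n}`. -/
@[ext] structure LoopSph (k n : ℕ) where
  /-- the family -/
  fam : EuclideanSpace ℝ (Fin k) × ℝ → SympCt n
  smooth : IsSmoothFamily fam
  bounded : ∃ r : ℝ, (∀ q, r ≤ ‖q‖ → fam q = 1) ∧ ∀ q, SupportedIn (closedBall 0 r) (fam q).map

/-- Smooth homotopies of spheroids in the loop space. -/
def LoopHomotopic {k n : ℕ} (S S' : LoopSph k n) : Prop :=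
  ∃ F : ℝ × (EuclideanSpace ℝ (Fin k) × ℝ) → SympCt n, IsSmoothFamily F ∧
    (∀ q, F (0, q) = S.fam q) ∧ (∀ q, F (1, q) = S'.fam q) ∧
    ∃ r : ℝ, (∀ t q, r ≤ ‖q‖ → F (t, q) = 1) ∧ ∀ p, SupportedIn (closedBall 0 r) (F p).map

/-- `S` is the spheroid of the scattering maps of the spheroid `P` of nontrapping functions:
every function of `P` has exactly one scattering map, given by `S`. -/
def HasScattering {k n : ℕ} (P : NTFam k n) (S : LoopSph k n) : Prop :=
  ∀ s (σ : ℝ → SympCt n), IsScattering (P.f s) σ ↔ ∀ x, σ x = S.fam (s, x)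

end Pool.Agent.H84.NT
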