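import Pool.Agent.H84.NT.Main

/-!
# The group of nontrapping functions
-/

set_option autoImplicit false
set_option linter.unusedSectionVars false

open Set Filter Topology Metric Function
open scoped ContDiff NNReal

noncomputable section

namespace Pool.Agent.H84.NT

open Pool.Agent.X277.Sy Pool.Agent.H84.PP

variable {k n : ℕ}

/-- a family of wave maps gives a spheroid of nontrapping functions -/
theorem exists_ntFam {R ρ : ℝ} {Ψ : EuclideanSpace ℝ (Fin k) → E (n + 1) → E (n + 1)}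
    (h : PFam R Ψ) (hρ : ∀ s z, ρ ≤ ‖s‖ → px (Ψ s z) = px z) :
    ∃ P : NTFam k n, ∀ s z, P.f s z = px (Ψ s z) :=
  ⟨⟨fun s z => px (Ψ s z), px.contDiff.comp h.smooth, fun s => PFam.nonTrapping h fun z => rfl,
    max ρ (3 * R + 1), fun s z hz => by
      rcases hz with hz | hz
      · exact hρ s z ((le_max_left _ _).trans hz)
      · exact h.px_far (by linarith [(le_max_right ρ (3 * R + 1)).trans hz])⟩, fun s z => rfl⟩

/-- the product of spheroids of loops -/
theorem exists_loop_mul (S S' : LoopSph k n) :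
    ∃ S'' : LoopSph k n, ∀ q, S''.fam q = S.fam q * S'.fam q := by
  obtain ⟨r, h1, h2⟩ := S.bounded
  obtain ⟨r', h1', h2'⟩ := S'.bounded
  refine ⟨⟨fun q => S.fam q * S'.fam q, S.smooth.mul S'.smooth, max r r', fun q hq => ?_,
    fun q => supp_mul (supp_mono (closedBall_subset_closedBall (le_max_left _ _)) (h2 q))
      (supp_mono (closedBall_subset_closedBall (le_max_right _ _)) (h2' q))⟩, fun q => rfl⟩
  rw [h1 q ((le_max_left _ _).trans hq), h1' q ((le_max_right _ _).trans hq), one_mul]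

/-- **The group of nontrapping functions.** -/
theorem exists_group (n : ℕ) : ∃ star : (E (n + 1) → ℝ) → (E (n + 1) → ℝ) → E (n + 1) → ℝ, ∀ k,
    (∀ P P' : NTFam k n, ∃ P'' : NTFam k n, (∀ s, P''.f s = star (P.f s) (P'.f s)) ∧
      ∀ S S' : LoopSph k n, HasScattering P S → HasScattering P' S' →
        ∃ S'' : LoopSph k n, (∀ q, S''.fam q = S.fam q * S'.fam q) ∧ HasScattering P'' S'') ∧
    (∀ (P P' P'' : NTFam k n) s, star (star (P.f s) (P'.f s)) (P''.f s) =
      star (P.f s) (star (P'.f s) (P''.f s))) ∧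
    (∀ (P : NTFam k n) s, star (fun z => z (0, 0)) (P.f s) = P.f s) ∧
    (∀ P : NTFam k n, ∃ P' : NTFam k n, ∀ s, star (P'.f s) (P.f s) = fun z => z (0, 0)) ∧
    ∀ (P : NTFam k n) (φ : Spheroid k (n + 1)) s z,
      star (P.f s) (fun z => (φ.fam s).map z (0, 0)) z = P.f s ((φ.fam s).map z) := by
  have hW : ∀ f : E (n + 1) → ℝ, ∃ W : E (n + 1) → E (n + 1), ∀ Ψ : E (n + 1) → E (n + 1),
      IsSymplectomorphism Ψ → (∃ R : ℝ, ∀ z, R ≤ py z → Ψ z = z) → (∀ z, px (Ψ z) = f z) →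
      W = Ψ := by
    intro f
    by_cases h : ∃ Ψ : E (n + 1) → E (n + 1),
      IsSymplectomorphism Ψ ∧ (∃ R : ℝ, ∀ z, R ≤ py z → Ψ z = z) ∧ ∀ z, px (Ψ z) = f z
    · obtain ⟨W, h1, ⟨R, h2⟩, h3⟩ := h
      refine ⟨W, fun Ψ g1 ⟨R', g2⟩ g3 => ?_⟩
      exact unique_of_px h1 g1 (R := max R R') (fun z hz => h2 z ((le_max_left _ _).trans hz))
        (fun z hz => g2 z ((le_max_right _ _).trans hz)) (fun z => by rw [h3, g3])
    · exact ⟨id, fun Ψ g1 g2 g3 => absurd ⟨Ψ, g1, g2, g3⟩ h⟩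
  choose W hW using hW
  refine ⟨fun f g z => f (W g z), fun k => ?_⟩
  choose R S Ω hR hRS hΩ hf hid using fun P : NTFam k n => exists_wave_nt P
  have hS0 : ∀ P, 0 ≤ S P := fun P => (hR P).le.trans (hRS P)
  have hWf : ∀ {f : E (n + 1) → ℝ} {R' : ℝ}
      {Ψ : EuclideanSpace ℝ (Fin k) → E (n + 1) → E (n + 1)} (s : EuclideanSpace ℝ (Fin k)),
      PFam R' Ψ → (∀ z, px (Ψ s z) = f z) → W f = Ψ s := fun {f R' Ψ} s h h' =>
    hW f (Ψ s) (h.symp s) ⟨R', fun z hz => h.out s z (Or.inl hz)⟩ h'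
  have hWP : ∀ (P : NTFam k n) s, W (P.f s) = Ω P s := fun P s => hWf s (hΩ P) (hf P s)
  have hcomp : ∀ P P' : NTFam k n, PFam (2 * max (S P) (S P')) (fun s z => Ω P s (Ω P' s z)) :=
    fun P P' => ((hΩ P).mono (le_max_left _ _)).mul ((hS0 P).trans (le_max_left _ _))
      ((hΩ P').mono (le_max_right _ _))
  refine ⟨fun P P' => ?_, fun P P' P'' s => ?_, fun P s => ?_, fun P => ?_, fun P φ s z => ?_⟩
  · obtain ⟨P'', hP''⟩ := exists_ntFam (ρ := max (R P) (R P')) (hcomp P P') fun s z hs => by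
      show px (Ω P s (Ω P' s z)) = px z
      rw [hid P' s z ((le_max_right _ _).trans hs), hid P s z ((le_max_left _ _).trans hs)]
    refine ⟨P'', fun s => ?_, fun T T' h h' => ?_⟩
    · funext z
      show P''.f s z = P.f s (W (P'.f s) z)
      rw [hP'', hWP, hf]
    · obtain ⟨T'', hT''⟩ := exists_loop_mul T T'
      refine ⟨T'', hT'', (hasScattering_iff (hcomp P P') (fun s z => (hP'' s z).symm)).2 ?_⟩
      intro s z hz
      have i1 := le_max_left (S P) (S P')
      have i2 := le_max_right (S P) (S P')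
      have h0 := hS0 P
      have h1 := (abs_le.1 ((hΩ P').move s z)).2
      have h2 := (hasScattering_iff (hΩ P') (hf P')).1 h' s z (by linarith)
      have h3 := (hasScattering_iff (hΩ P) (hf P)).1 h s (Ω P' s z) (by linarith)
      have h4 : px (Ω P' s z) = px z := (hΩ P').px_left (by linarith)
      show pv (Ω P s (Ω P' s z)) = _
      rw [h3, h4, h2, hT'']
      rfl
  · funext z
    show P.f s (W (P'.f s) (W (P''.f s) z)) = P.f s (W (fun z => P'.f s (W (P''.f s) z)) z)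
    have h1 : W (fun z => P'.f s (W (P''.f s) z)) = fun z => Ω P' s (Ω P'' s z) :=
      hWf s (hcomp P' P'') fun z => by
        show px (Ω P' s (Ω P'' s z)) = P'.f s (W (P''.f s) z)
        rw [hf, hWP]
    rw [h1, hWP, hWP]
  · funext z
    show px (W (P.f s) z) = P.f s z
    rw [hWP, hf]
  · obtain ⟨χ, hχ1, hχ2, hχ⟩ := (hΩ P).exists_inv (hS0 P)
    obtain ⟨P', hP'⟩ := exists_ntFam (ρ := R P) hχ fun s z hs => by
      have h1 := hχ1 s z
      rw [hid P s z hs] at h1
      rw [h1]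
    refine ⟨P', fun s => ?_⟩
    funext z
    show P'.f s (W (P.f s) z) = px z
    rw [hP', hWP, hχ1]
  · obtain ⟨r, -, hr⟩ := φ.bounded
    have h1 : W (fun z => (φ.fam s).map z (0, 0)) = (φ.fam s).map :=
      hW _ _ (φ.fam s).isSymp ⟨r + 1, fun z hz => far_fix (hr s) (by
        linarith [le_abs_self (py z), abs_py_le z])⟩ fun z => rfl
    show P.f s (W (fun z => (φ.fam s).map z (0, 0)) z) = _
    rw [h1]

end Pool.Agent.H84.NT
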