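import Pool.Agent.H84.NT.Scat

/-!
# Scattering is a fibration
-/

set_option autoImplicit false
set_option linter.unusedSectionVars false

open Set Filter Topology Metric Function
open scoped ContDiff NNReal

noncomputable section

namespace Pool.Agent.H84.NT

open Pool.Agent.X277.Sy Pool.Agent.H84.PP

variable {k n : ℕ}

/-- **Homotopy lifting.** -/
theorem lift' (hn : 0 < n) {P : NTFam k n} {S : LoopSph k n} (h : HasScattering P S)
    {F : ℝ × (EuclideanSpace ℝ (Fin k) × ℝ) → SympCt n} (F1 : IsSmoothFamily F)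
    (F2 : ∀ q, F (0, q) = S.fam q) {r : ℝ} (F4 : ∀ t q, r ≤ ‖q‖ → F (t, q) = 1)
    (F5 : ∀ p, SupportedIn (closedBall 0 r) (F p).map) :
    ∃ G : ℝ → EuclideanSpace ℝ (Fin k) → E (n + 1) → ℝ,
      ContDiff ℝ ∞ (fun p : (ℝ × EuclideanSpace ℝ (Fin k)) × E (n + 1) => G p.1.1 p.1.2 p.2) ∧
      (∃ r : ℝ, ∀ t s z, (r ≤ ‖s‖ ∨ r ≤ ‖z‖) → G t s z = z (0, 0)) ∧ G 0 = P.f ∧
      ∀ t s, NonTrapping (G t s) ∧ ∀ σ : ℝ → SympCt n, IsScattering (G t s) σ ↔
        ∀ x, σ x = F (Real.smoothTransition t, (s, x)) := by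
  obtain ⟨R₀, R₁, Ω, hR, hRS, hΩ, hf, hid⟩ := exists_wave_nt P
  have hleft := (hasScattering_iff hΩ hf).1 h
  obtain ⟨ρ, hρ1, hρ2⟩ := S.bounded
  set r' : ℝ := max (max r ρ) 0 with hr'
  have hrr : r ≤ r' := (le_max_left _ _).trans (le_max_left _ _)
  have hρr : ρ ≤ r' := (le_max_right _ _).trans (le_max_left _ _)
  let T : ℝ × (EuclideanSpace ℝ (Fin k) × ℝ) → SympCt n := fun p => F p * (S.fam p.2)⁻¹
  have hT : IsSmoothFamily T := F1.mul (S.smooth.comp contDiff_snd).inv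
  have hT1 : ∀ u (q : EuclideanSpace ℝ (Fin k) × ℝ), r' ≤ ‖q‖ → T (u, q) = 1 := by
    intro u q hq
    show F (u, q) * (S.fam q)⁻¹ = 1
    rw [F4 u q (hrr.trans hq), hρ1 q (hρr.trans hq), inv_one, one_mul]
  obtain ⟨R2, Ω', hR2, P1, P2, P3, P4⟩ := exists_ext hn hT (le_max_right _ _ : 0 ≤ r')
    (fun q => by
      show F (0, q) * (S.fam q)⁻¹ = 1
      rw [F2, mul_inv_cancel])
    (fun u q x hx => hT1 u (q, x) (hx.trans (le_max_right _ _)))
    (fun u q x hq => hT1 u (q, x) (hq.trans (le_max_left _ _)))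
    (fun p => supp_mul (supp_mono (closedBall_subset_closedBall hrr) (F5 p))
      (supp_inv (supp_mono (closedBall_subset_closedBall hρr) (hρ2 p.2))))
  set R : ℝ := max R₁ R2 with hRdef
  have hR0 : 0 ≤ R := by linarith [le_max_left R₁ R2]
  have hΩR : PFam R Ω := hΩ.mono (le_max_left _ _)
  have hΩ'R : PFam R Ω' := P1.mono (le_max_right _ _)
  let Ψ : ℝ × EuclideanSpace ℝ (Fin k) → E (n + 1) → E (n + 1) := fun p z => Ω' p (Ω p.2 z)
  have hΨ : PFam (2 * R) Ψ := hΩ'R.mul hR0 (hΩR.comp contDiff_snd)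
  have hfar : ∀ u s z, max R₀ r' ≤ ‖s‖ → px (Ψ (u, s) z) = px z := by
    intro u s z hs
    show px (Ω' (u, s) (Ω s z)) = px z
    rw [hid s z ((le_max_left _ _).trans hs), P4 s (fun u x => hT1 u (s, x)
      (((le_max_right _ _).trans hs).trans (le_max_left _ _))) u z]
  -- the left end
  have hΨleft : ∀ u s z, py z ≤ -(2 * R) →
      pv (Ψ (u, s) z) = (F (Real.smoothTransition u, (s, px z))).map (pv z) := by
    intro u s z hz
    have h1 := (abs_le.1 (hΩR.move s z)).2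
    have h2 : py (Ω s z) ≤ -R := by linarith
    have h3 := P2 u s (Ω s z) (by linarith [le_max_right R₁ R2])
    have h4 : px (Ω s z) = px z := hΩR.px_left (by linarith)
    have h5 := hleft s z (by linarith [le_max_left R₁ R2])
    show pv (Ω' (u, s) (Ω s z)) = _
    rw [h3, h4, h5]
    show ((F (Real.smoothTransition u, (s, px z)) * (S.fam (s, px z))⁻¹) *
      S.fam (s, px z)).map (pv z) = _
    rw [inv_mul_cancel_right]
  refine ⟨fun t s z => px (Ψ (t, s) z), px.contDiff.comp hΨ.smooth,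
    ⟨max (max R₀ r') (3 * (2 * R) + 1), fun t s z hz => ?_⟩, ?_, fun t s =>
    ⟨PFam.nonTrapping hΨ (q := (t, s)) fun z => rfl, fun τ => ?_⟩⟩
  · rcases hz with hz | hz
    · exact hfar t s z ((le_max_left _ _).trans hz)
    · exact hΨ.px_far (by linarith [(le_max_right (max R₀ r') (3 * (2 * R) + 1)).trans hz])
  · funext s z
    show px (Ω' (0, s) (Ω s z)) = P.f s z
    rw [P3 0 s _ le_rfl, hf]
  · rw [isScattering_iff hΨ (q := (t, s)) fun z => rfl]
    constructor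
    · intro hτ x
      exact left_unique (τ := τ) (τ' := fun x => F (Real.smoothTransition t, (s, x))) hτ
        (hΨleft t s) x
    · intro hτ z hz
      rw [hτ]
      exact hΨleft t s z hz

theorem lift (hn : 0 < n) {P : NTFam k n} {S S' : LoopSph k n} (h : HasScattering P S)
    (hS : LoopHomotopic S S') : ∃ P' : NTFam k n, HasScattering P' S' ∧ NTHomotopic P P' := by
  obtain ⟨F, F1, F2, F3, r, F4, F5⟩ := hS
  obtain ⟨G, G1, ⟨ρ, G2⟩, G3, G4⟩ := lift' hn h F1 F2 F4 F5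
  have hA : ContDiff ℝ ∞ (fun p : EuclideanSpace ℝ (Fin k) × E (n + 1) =>
      ((((1 : ℝ), p.1), p.2) : (ℝ × EuclideanSpace ℝ (Fin k)) × E (n + 1))) :=
    (contDiff_const.prodMk contDiff_fst).prodMk contDiff_snd
  refine ⟨⟨G 1, G1.comp hA, fun s => (G4 1 s).1, ρ, fun s z hz => G2 1 s z hz⟩, fun s σ => ?_,
    G, G1, fun t s => (G4 t s).1, ⟨ρ, G2⟩, G3, rfl⟩
  show IsScattering (G 1 s) σ ↔ _
  rw [(G4 1 s).2 σ, Real.smoothTransition.one]
  simp only [F3]

/-- homotopic spheroids have homotopic scattering maps -/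
theorem loopHomotopic_of (hn : 0 < n) {P P' : NTFam k n} {S S' : LoopSph k n}
    (h : HasScattering P S) (h' : HasScattering P' S') (hP : NTHomotopic P P') :
    LoopHomotopic S S' := by
  obtain ⟨F, h1, h2, h3, h4, h5⟩ := hP
  obtain ⟨R, hR, hd, hfar, hK⟩ := homotopy_data h1 h2 h3
  obtain ⟨R₁, Ω, hRR, hΩ, hf, -, -⟩ := exists_wave' hR.le hd
    (isCompact_Icc.prod (isCompact_closedBall _ _)) hK
  obtain ⟨τ, t1, t2, t3, t4, t5⟩ := hΩ.exists_left hn
  have key : ∀ {P : NTFam k n} {S : LoopSph k n} {t : ℝ}, HasScattering P S →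
      F (Real.smoothTransition t) = P.f → ∀ q, τ ((t, q.1), q.2) = S.fam q := by
    rintro P S t h hF ⟨s, x⟩
    refine (h s (fun x => τ ((t, s), x))).1 ?_ x
    refine (isScattering_iff hΩ (q := (t, s)) (fun z => ?_)).2 (fun z hz => t2 (t, s) z hz)
    rw [hf, hF]
  refine ⟨fun p => τ ((p.1, p.2.1), p.2.2), t1.comp ((contDiff_fst.prodMk
    (contDiff_fst.comp contDiff_snd)).prodMk (contDiff_snd.comp contDiff_snd)),
    key (t := 0) h (by rw [Real.smoothTransition.zero]; exact h4),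
    key (t := 1) h' (by rw [Real.smoothTransition.one]; exact h5), max R R₁, ?_, fun p => supp_mono
      (closedBall_subset_closedBall (le_max_right _ _)) (t4 _)⟩
  rintro t ⟨s, x⟩ hq
  have h6 : ‖((s, x) : EuclideanSpace ℝ (Fin k) × ℝ)‖ = max ‖s‖ ‖x‖ := rfl
  rw [h6] at hq
  rcases le_max_iff.1 hq with h7 | h7
  · refine t5 (t, s) (fun z => wave_id hΩ (fun z => ?_) z) x
    rw [hf, hfar _ s z ((le_max_left _ _).trans h7)]
  · exact t3 (t, s) x ((le_max_right _ _).trans h7)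

/-- **Scattering and homotopies.** -/
theorem loopHomotopic_iff (hn : 0 < n) {P : NTFam k n} {S S' : LoopSph k n}
    (h : HasScattering P S) :
    LoopHomotopic S S' ↔ ∃ P' : NTFam k n, HasScattering P' S' ∧ NTHomotopic P P' :=
  ⟨fun hS => lift hn h hS, fun ⟨_, h', hP⟩ => loopHomotopic_of hn h h' hP⟩

end Pool.Agent.H84.NT
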