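import Pool.Agent.H84.NT.Lift

/-!
# Symplectomorphisms and nontrapping functions
-/

set_option autoImplicit false
set_option linter.unusedSectionVars false

open Set Filter Topology Metric Function
open scoped ContDiff NNReal

noncomputable section

namespace Pool.Agent.H84.NT

open Pool.Agent.X277.Sy Pool.Agent.H84.PP

variable {k n : ℕ}

/-! ### Homotopies -/

theorem NTHomotopic.symm {P P' : NTFam k n} (h : NTHomotopic P P') : NTHomotopic P' P := by
  obtain ⟨Q, rfl⟩ := exists_pos P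
  obtain ⟨Q', rfl⟩ := exists_pos P'
  exact posHomotopic_iff.1 (posHomotopic_iff.2 h).symm

theorem NTHomotopic.trans {P P' P'' : NTFam k n} (h : NTHomotopic P P')
    (h' : NTHomotopic P' P'') : NTHomotopic P P'' := by
  obtain ⟨Q, rfl⟩ := exists_pos P
  obtain ⟨Q', rfl⟩ := exists_pos P'
  obtain ⟨Q'', rfl⟩ := exists_pos P''
  exact posHomotopic_iff.1 ((posHomotopic_iff.2 h).trans (posHomotopic_iff.2 h'))

theorem NTHomotopic.refl (P : NTFam k n) : NTHomotopic P P := by
  obtain ⟨r, hr⟩ := P.bounded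
  exact ⟨fun _ => P.f, P.smooth.comp ((contDiff_snd.comp contDiff_fst).prodMk contDiff_snd),
    fun _ s => P.nontrapping s, ⟨r, fun _ => hr⟩, rfl, rfl⟩

theorem ntHomotopic_of_homotopic {φ ψ : Spheroid k (n + 1)} (h : Homotopic φ ψ) :
    NTHomotopic (ofSympNT φ) (ofSympNT ψ) := posHomotopic_iff.1 (posHomotopic_of_homotopic h)

/-! ### Trivial scattering -/

theorem pfam_id {Q : Type} [NormedAddCommGroup Q] [NormedSpace ℝ Q] :
    PFam (n := n) (0 : ℝ) (fun (_ : Q) (z : E (n + 1)) => z) where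
  smooth := contDiff_snd
  symp _ := isSymp_id
  out _ _ _ := rfl
  left _ _ _ _ _ := rfl
  move _ _ := by simp

theorem scattering_trivial : HasScattering (ofSympNT (trivialSpheroid k (n + 1)))
    (trivialLoop k n) :=
  (hasScattering_iff (pfam_id (Q := EuclideanSpace ℝ (Fin k))) (fun _ _ => rfl)).2
    fun _ _ _ => rfl

theorem scattering_trivial_iff (hn : 0 < n) (P : NTFam k n) :
    HasScattering P (trivialLoop k n) ↔ ∃ φ : Spheroid k (n + 1), ofSympNT φ = P := by
  constructor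
  · intro h
    obtain ⟨φ, hφ⟩ := (same_scattering hn scattering_trivial h).1 rfl
    exact ⟨φ, NTFam.ext (funext fun s => funext fun z => (hφ s z).symm)⟩
  · rintro ⟨φ, rfl⟩
    obtain ⟨S, hS⟩ := exists_scattering hn (ofSympNT φ)
    have h1 := (same_scattering hn scattering_trivial hS).2 ⟨φ, fun s z => rfl⟩
    rwa [h1]

theorem contractible_iff (hn : 0 < n) {P : NTFam k n} {S : LoopSph k n}
    (h : HasScattering P S) :
    LoopHomotopic S (trivialLoop k n) ↔ ∃ φ : Spheroid k (n + 1), NTHomotopic P (ofSympNT φ) := by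
  rw [loopHomotopic_iff hn h]
  constructor
  · rintro ⟨P', h1, h2⟩
    obtain ⟨φ, rfl⟩ := (scattering_trivial_iff hn P').1 h1
    exact ⟨φ, h2⟩
  · rintro ⟨φ, hφ⟩
    exact ⟨ofSympNT φ, (scattering_trivial_iff hn _).2 ⟨φ, rfl⟩, hφ⟩

/-! ### Homotopy groups -/

theorem surj_nt (hn : 0 < n) (hT : PiTrivial (k + 1) n) (P : NTFam k n) :
    ∃ φ : Spheroid k (n + 1), NTHomotopic P (ofSympNT φ) := by
  obtain ⟨Q, rfl⟩ := exists_pos P
  obtain ⟨φ, hφ⟩ := surj hn hT Q
  exact ⟨φ, posHomotopic_iff.1 hφ⟩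

theorem inj_nt (hn : 0 < n) (hT : PiTrivial (k + 2) n) (φ ψ : Spheroid k (n + 1)) :
    Homotopic φ ψ ↔ NTHomotopic (ofSympNT φ) (ofSympNT ψ) :=
  ⟨ntHomotopic_of_homotopic, fun h => inj hn hT φ ψ (posHomotopic_iff.2 h)⟩

/-! ### Components -/

theorem homotopic_zero_iff {m : ℕ} (f g : Spheroid 0 m) :
    Homotopic f g ↔ Joined (f.fam 0) (g.fam 0) := by
  have hs : ∀ s : EuclideanSpace ℝ (Fin 0), s = 0 := fun s => Subsingleton.elim _ _
  constructor
  · rintro ⟨L, hL, F, F1, F2, F3, -, F5⟩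
    refine Isotopic.joined ⟨L, hL, fun t => (F (t, 0)).map, ⟨?_, fun t => (F (t, 0)).isSymp,
      fun t => F5 _⟩, ?_, ?_⟩
    · have h2 : ContDiff ℝ ∞ (fun p : ℝ × E m =>
          (((p.1, (0 : EuclideanSpace ℝ (Fin 0))), p.2) :
            (ℝ × EuclideanSpace ℝ (Fin 0)) × E m)) :=
        (contDiff_fst.prodMk contDiff_const).prodMk contDiff_snd
      exact ContDiff.comp F1 h2
    · show (F (0, 0)).map = _
      rw [F2]
    · show (F (1, 0)).map = _
      rw [F3]
  · intro h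
    obtain ⟨K, hK, Φ, h1, h2, h3⟩ := (joined_iff _ _).1 h
    refine ⟨K, hK, fun q => ⟨Φ q.1, h1.symp _, K, hK, h1.supp _⟩, ?_, fun s => ?_, fun s => ?_,
      ⟨1, fun t s hs' => ?_⟩, fun q => h1.supp _⟩
    · have h4 : ContDiff ℝ ∞ (fun p : (ℝ × EuclideanSpace ℝ (Fin 0)) × E m => (p.1.1, p.2)) :=
        (contDiff_fst.comp contDiff_fst).prodMk contDiff_snd
      exact ContDiff.comp h1.smooth h4
    · apply SympCt.ext
      rw [hs s]
      exact h2
    · apply SympCt.ext
      rw [hs s]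
      exact h3
    · rw [hs s, norm_zero] at hs'
      linarith

theorem exists_sph {m : ℕ} (φ : SympCt m) : ∃ f : Spheroid 0 m, f.fam 0 = φ := by
  have hs : ∀ s : EuclideanSpace ℝ (Fin 0), s = 0 := fun s => Subsingleton.elim _ _
  obtain ⟨K, hK⟩ := φ.compactSupport
  obtain ⟨r, hr⟩ := hK.1.isBounded.subset_closedBall (0 : E m)
  exact ⟨{ fam := fun _ => φ
           smooth := isSmoothFamily_const φ
           bounded := ⟨max r 1, fun s hs' => by
              rw [hs s, norm_zero] at hs'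
              linarith [le_max_right r 1], fun _ => supp_mono (hr.trans
                (closedBall_subset_closedBall (le_max_left _ _))) hK.2⟩ }, rfl⟩

/-- **Components.** -/
theorem countable_iff (hn : 0 < n) (h1 : PiTrivial 1 n) (h2 : PiTrivial 2 n) :
    Countable (ZerothHomotopy (SympCt (n + 1))) ↔
      ∃ u : ℕ → NTFam 0 n, ∀ P, ∃ i, NTHomotopic P (u i) := by
  constructor
  · intro h
    have : Nonempty (ZerothHomotopy (SympCt (n + 1))) := ⟨Quotient.mk _ 1⟩
    obtain ⟨e, he⟩ := exists_surjective_nat (ZerothHomotopy (SympCt (n + 1)))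
    have hrep : ∀ i, ∃ f : Spheroid 0 (n + 1), (Quotient.mk _ (f.fam 0) :
        ZerothHomotopy (SympCt (n + 1))) = e i := by
      intro i
      obtain ⟨φ, hφ⟩ := Quotient.exists_rep (e i)
      obtain ⟨f, hf⟩ := exists_sph φ
      exact ⟨f, by rw [hf]; exact hφ⟩
    choose f hf using hrep
    refine ⟨fun i => ofSympNT (f i), fun P => ?_⟩
    obtain ⟨φ, hφ⟩ := surj_nt hn h1 P
    obtain ⟨i, hi⟩ := he (Quotient.mk _ (φ.fam 0))
    refine ⟨i, hφ.trans (ntHomotopic_of_homotopic ((homotopic_zero_iff _ _).2 ?_))⟩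
    have h3 : (Quotient.mk _ (φ.fam 0) : ZerothHomotopy (SympCt (n + 1))) =
        Quotient.mk _ ((f i).fam 0) := by rw [hf i, hi]
    exact Quotient.exact h3
  · rintro ⟨u, hu⟩
    choose φ hφ using fun i => surj_nt hn h1 (u i)
    refine (show Surjective (fun i => (Quotient.mk _ ((φ i).fam 0) :
      ZerothHomotopy (SympCt (n + 1)))) from fun c => ?_).countable
    obtain ⟨ψ, rfl⟩ := Quotient.exists_rep c
    obtain ⟨f, rfl⟩ := exists_sph ψ
    obtain ⟨i, hi⟩ := hu (ofSympNT f)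
    refine ⟨i, Quotient.sound ?_⟩
    exact (homotopic_zero_iff _ _).1 ((inj_nt hn h2 _ _).2 (hi.trans (hφ i)).symm)

/-- partners of nontrapping functions -/
theorem nonTrapping_iff {f : E (n + 1) → ℝ} (hf : ContDiff ℝ ∞ f)
    (hr : ∃ r : ℝ, ∀ z, r ≤ ‖z‖ → f z = z (0, 0)) :
    NonTrapping f ↔ ∃ g : E (n + 1) → ℝ, ContDiff ℝ ∞ g ∧
      (∃ r : ℝ, ∀ z, r ≤ ‖z‖ → g z = z (0, 1)) ∧ ∀ z, 0 < bracket f g z := by
  obtain ⟨r, hr⟩ := hr
  constructor
  · intro h
    obtain ⟨R', e, e1, e2, e3, -⟩ := exists_partner (Q := ℝ) (R := max r 0) (f := fun _ => f)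
      (le_max_right _ _) ⟨hf.comp contDiff_snd,
        fun _ z hz => hr z ((le_max_left _ _).trans hz), fun _ => h⟩ (C := {0})
      isCompact_singleton (fun q => ⟨0, rfl, rfl⟩)
    exact ⟨e 0, slice_smooth e1 0, ⟨R', e2 0⟩, e3 0⟩
  · rintro ⟨g, hg, ⟨r', hr'⟩, hpos⟩
    exact PosData.nonTrapping (Q := ℝ) (R := max r r') (f := fun _ => f) (g := fun _ => g)
      ⟨hf.comp contDiff_snd, hg.comp contDiff_snd,
        fun _ z hz => hr z ((le_max_left _ _).trans hz),
        fun _ z hz => hr' z ((le_max_right _ _).trans hz), fun _ => hpos⟩ 0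

end Pool.Agent.H84.NT
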