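import Pool.Agent.H84.NT.Sph

/-!
# Partners of nontrapping functions
-/

set_option autoImplicit false
set_option linter.unusedSectionVars false

open Set Filter Topology Metric Function
open scoped ContDiff NNReal

noncomputable section

namespace Pool.Agent.H84.NT

open Pool.Agent.X277.Sy Pool.Agent.H84.PP

variable {n : ℕ} {Q : Type} [NormedAddCommGroup Q] [NormedSpace ℝ Q]

variable {k : ℕ}

theorem NTFam.data (P : NTFam k n) : ∃ R : ℝ, 0 < R ∧ NTData R P.f ∧
    (∀ s z, R ≤ ‖s‖ → P.f s z = px z) ∧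
    ∀ s, ∃ s' ∈ closedBall (0 : EuclideanSpace ℝ (Fin k)) R, P.f s = P.f s' := by
  obtain ⟨r, hr⟩ := P.bounded
  have hR1 : 0 < max r 1 := lt_of_lt_of_le one_pos (le_max_right _ _)
  have hfar : ∀ s z, max r 1 ≤ ‖s‖ → P.f s z = px z := fun s z hs =>
    hr s z (Or.inl ((le_max_left _ _).trans hs))
  refine ⟨max r 1, hR1, ⟨P.smooth, fun s z hz => hr s z (Or.inr ((le_max_left _ _).trans hz)),
    P.nontrapping⟩, hfar, fun s => ?_⟩
  obtain ⟨s', hs', h⟩ := exists_clamp hR1 s
  refine ⟨s', hs', ?_⟩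
  rcases h with h | ⟨h, h'⟩
  · rw [h]
  · funext z
    rw [hfar s z h, hfar s' z h']

theorem exists_pos (P : NTFam k n) : ∃ P' : PosFam k n, toNT P' = P := by
  obtain ⟨R, hR, h, hfar, hK⟩ := NTFam.data P
  obtain ⟨R', e, he, he1, he2, he3⟩ := exists_partner hR.le h (isCompact_closedBall _ _) hK
  refine ⟨⟨P.f, e, P.smooth, he, he2, max R R', fun s z hz => ?_⟩, rfl⟩
  rcases hz with hz | hz
  · have h1 : ∀ w, P.f s w = px w := fun w => hfar s w ((le_max_left _ _).trans hz)
    exact ⟨h1 z, he3 s h1 z⟩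
  · exact ⟨h.out_f s z ((le_max_left _ _).trans hz), he1 s z ((le_max_right _ _).trans hz)⟩

/-- the data of a homotopy -/
theorem homotopy_data {F : ℝ → EuclideanSpace ℝ (Fin k) → E (n + 1) → ℝ}
    (h1 : ContDiff ℝ ∞ (fun p : (ℝ × EuclideanSpace ℝ (Fin k)) × E (n + 1) => F p.1.1 p.1.2 p.2))
    (h2 : ∀ t s, NonTrapping (F t s))
    (h3 : ∃ r : ℝ, ∀ t s z, (r ≤ ‖s‖ ∨ r ≤ ‖z‖) → F t s z = z (0, 0)) :
    ∃ R : ℝ, 0 < R ∧ NTData R (fun (q : ℝ × EuclideanSpace ℝ (Fin k)) =>
      F (Real.smoothTransition q.1) q.2) ∧ (∀ t s z, R ≤ ‖s‖ → F t s z = px z) ∧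
      ∀ q : ℝ × EuclideanSpace ℝ (Fin k), ∃ q' ∈ (Icc (0 : ℝ) 1) ×ˢ
        closedBall (0 : EuclideanSpace ℝ (Fin k)) R,
        F (Real.smoothTransition q.1) q.2 = F (Real.smoothTransition q'.1) q'.2 := by
  obtain ⟨r, hr⟩ := h3
  have hR1 : 0 < max r 1 := lt_of_lt_of_le one_pos (le_max_right _ _)
  have hfar : ∀ t s z, max r 1 ≤ ‖s‖ → F t s z = px z := fun t s z hs =>
    hr t s z (Or.inl ((le_max_left _ _).trans hs))
  have hA : ContDiff ℝ ∞ (fun p : (ℝ × EuclideanSpace ℝ (Fin k)) × E (n + 1) =>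
      ((Real.smoothTransition p.1.1, p.1.2), p.2)) :=
    ((Real.smoothTransition.contDiff.comp (contDiff_fst.comp contDiff_fst)).prodMk
      (contDiff_snd.comp contDiff_fst)).prodMk contDiff_snd
  refine ⟨max r 1, hR1, ⟨h1.comp hA, fun q z hz => hr _ _ z (Or.inr ((le_max_left _ _).trans hz)),
    fun q => h2 _ _⟩, hfar, fun q => ?_⟩
  obtain ⟨s', hs', h⟩ := exists_clamp hR1 q.2
  obtain ⟨t', ht', h'⟩ := clamp_unit q.1
  refine ⟨(t', s'), ⟨ht', hs'⟩, ?_⟩
  rcases h with h | ⟨h, h''⟩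
  · rw [h', h]
  · funext z
    rw [hfar _ q.2 z h, hfar _ s' z h'']

theorem posHomotopic_iff {P P' : PosFam k n} :
    PosHomotopic P P' ↔ NTHomotopic (toNT P) (toNT P') := by
  constructor
  · rintro ⟨F, G, h1, h2, h3, ⟨r, h4⟩, h5, h6, h7, h8⟩
    refine ⟨F, h1, fun t s => ?_, ⟨r, fun t s z hz => (h4 t s z hz).1⟩, h5, h7⟩
    exact PosData.nonTrapping (R := r) (f := fun q : ℝ × EuclideanSpace ℝ (Fin k) => F q.1 q.2)
      (g := fun q => G q.1 q.2) ⟨h1, h2, fun q z hz => (h4 _ _ z (Or.inr hz)).1,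
        fun q z hz => (h4 _ _ z (Or.inr hz)).2, fun q z => h3 _ _ z⟩ (t, s)
  · rintro ⟨F, h1, h2, h3, h4, h5⟩
    obtain ⟨R, hR, hd, hfar, hK⟩ := homotopy_data h1 h2 h3
    obtain ⟨R', e, he, he1, he2, he3⟩ := exists_partner hR.le hd
      (isCompact_Icc.prod (isCompact_closedBall _ _)) hK
    obtain ⟨r, hr⟩ := P.bounded
    obtain ⟨r', hr'⟩ := P'.bounded
    change F 0 = P.f at h4
    change F 1 = P'.f at h5
    let σ : ℝ → ℝ := Real.smoothTransition
    have hσ : ContDiff ℝ ∞ σ := Real.smoothTransition.contDiff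
    have σ0 : ∀ x, x ≤ 0 → σ x = 0 := fun x hx => Real.smoothTransition.zero_of_nonpos hx
    have σ1 : ∀ x, 1 ≤ x → σ x = 1 := fun x hx => Real.smoothTransition.one_of_one_le hx
    have σn : ∀ x, 0 ≤ σ x := Real.smoothTransition.nonneg
    have σl : ∀ x, σ x ≤ 1 := Real.smoothTransition.le_one
    have hfst : ContDiff ℝ ∞ (fun p : (ℝ × EuclideanSpace ℝ (Fin k)) × E (n + 1) => p.1.1) :=
      contDiff_fst.comp contDiff_fst
    have hA : ContDiff ℝ ∞ (fun p : (ℝ × EuclideanSpace ℝ (Fin k)) × E (n + 1) =>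
        (((3 * p.1.1 - 1, p.1.2), p.2) : (ℝ × EuclideanSpace ℝ (Fin k)) × E (n + 1))) :=
      (((contDiff_const.mul hfst).sub contDiff_const).prodMk
        (contDiff_snd.comp contDiff_fst)).prodMk contDiff_snd
    have hC : ContDiff ℝ ∞ (fun p : (ℝ × EuclideanSpace ℝ (Fin k)) × E (n + 1) =>
        (p.1.2, p.2)) := (contDiff_snd.comp contDiff_fst).prodMk contDiff_snd
    have ha : ContDiff ℝ ∞ (fun p : (ℝ × EuclideanSpace ℝ (Fin k)) × E (n + 1) =>
        σ (3 * p.1.1)) := hσ.comp (contDiff_const.mul hfst)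
    have hb : ContDiff ℝ ∞ (fun p : (ℝ × EuclideanSpace ℝ (Fin k)) × E (n + 1) =>
        σ (3 * p.1.1 - 2)) := hσ.comp ((contDiff_const.mul hfst).sub contDiff_const)
    let G : ℝ → EuclideanSpace ℝ (Fin k) → E (n + 1) → ℝ := fun t s z =>
      (1 - σ (3 * t)) * P.g s z + σ (3 * t) *
        ((1 - σ (3 * t - 2)) * e (3 * t - 1, s) z + σ (3 * t - 2) * P'.g s z)
    have hG : ∀ t s z, t ≤ 2 / 3 → G t s z = (1 - σ (3 * t)) * P.g s z + σ (3 * t) *
        e (3 * t - 1, s) z := by
      intro t s z ht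
      show (1 - σ (3 * t)) * P.g s z + σ (3 * t) *
        ((1 - σ (3 * t - 2)) * e (3 * t - 1, s) z + σ (3 * t - 2) * P'.g s z) = _
      rw [σ0 (3 * t - 2) (by linarith)]
      ring
    have hG' : ∀ t s z, 1 / 3 ≤ t → G t s z = (1 - σ (3 * t - 2)) * e (3 * t - 1, s) z +
        σ (3 * t - 2) * P'.g s z := by
      intro t s z ht
      show (1 - σ (3 * t)) * P.g s z + σ (3 * t) *
        ((1 - σ (3 * t - 2)) * e (3 * t - 1, s) z + σ (3 * t - 2) * P'.g s z) = _
      rw [σ1 (3 * t) (by linarith)]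
      ring
    have heslice : ∀ p, Differentiable ℝ (e p) := fun p =>
      (slice_smooth he p).differentiable (by simp)
    have hgslice : ∀ s, Differentiable ℝ (P.g s) := fun s =>
      (slice_smooth P.smooth_g s).differentiable (by simp)
    have hgslice' : ∀ s, Differentiable ℝ (P'.g s) := fun s =>
      (slice_smooth P'.smooth_g s).differentiable (by simp)
    refine ⟨fun t => F (σ (3 * t - 1)), G, hd.smooth_f.comp hA,
      ((contDiff_const.sub ha).mul (P.smooth_g.comp hC)).add (ha.mul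
        (((contDiff_const.sub hb).mul (he.comp hA)).add (hb.mul (P'.smooth_g.comp hC)))),
      fun t s z => ?_, ⟨max (max R R') (max r r'), fun t s z hz => ?_⟩, ?_, ?_, ?_, ?_⟩
    · have h7 : 0 < bracket (F (σ (3 * t - 1)) s) (e (3 * t - 1, s)) z := he2 (3 * t - 1, s) z
      have hcomb : ∀ (c a b : ℝ), 0 ≤ c → c ≤ 1 → 0 < a → 0 < b → 0 < (1 - c) * a + c * b := by
        intro c a b hc0 hc1 ha hb
        rcases hc0.eq_or_lt with h8 | h8
        · rw [← h8]
          linarith
        · have h9 := mul_pos h8 hb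
          have h10 := mul_nonneg (sub_nonneg.2 hc1) ha.le
          linarith
      rcases le_total t (1 / 3) with ht | ht
      · have e1 : G t s = fun z => (1 - σ (3 * t)) * P.g s z + σ (3 * t) * e (3 * t - 1, s) z :=
          funext fun z => hG t s z (by linarith)
        have e2 : F (σ (3 * t - 1)) s = P.f s := by
          rw [σ0 (3 * t - 1) (by linarith), h4]
        rw [e1, bracket_combo (hgslice s z) (heslice _ z)]
        refine hcomb _ _ _ (σn _) (σl _) ?_ h7
        show 0 < bracket (F (σ (3 * t - 1)) s) (P.g s) z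
        rw [e2]
        exact P.pos s z
      · rcases le_total t (2 / 3) with ht' | ht'
        · have e1 : G t s = e (3 * t - 1, s) := by
            funext z
            rw [hG t s z ht', σ1 (3 * t) (by linarith)]
            ring
          rw [e1]
          exact h7
        · have e1 : G t s = fun z => (1 - σ (3 * t - 2)) * e (3 * t - 1, s) z +
              σ (3 * t - 2) * P'.g s z := funext fun z => hG' t s z ht
          have e2 : F (σ (3 * t - 1)) s = P'.f s := by
            rw [σ1 (3 * t - 1) (by linarith), h5]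
          rw [e1, bracket_combo (heslice _ z) (hgslice' s z)]
          refine hcomb _ _ _ (σn _) (σl _) h7 ?_
          show 0 < bracket (F (σ (3 * t - 1)) s) (P'.g s) z
          rw [e2]
          exact P'.pos s z
    · have key : F (σ (3 * t - 1)) s z = px z ∧ e (3 * t - 1, s) z = py z ∧ P.g s z = py z ∧
          P'.g s z = py z := by
        have i1 : R ≤ max (max R R') (max r r') := (le_max_left _ _).trans (le_max_left _ _)
        have i2 : R' ≤ max (max R R') (max r r') := (le_max_right _ _).trans (le_max_left _ _)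
        have i3 : r ≤ max (max R R') (max r r') := (le_max_left _ _).trans (le_max_right _ _)
        have i4 : r' ≤ max (max R R') (max r r') := (le_max_right _ _).trans (le_max_right _ _)
        rcases hz with hz | hz
        · have k1 : ∀ w, F (σ (3 * t - 1)) s w = px w := fun w => hfar _ s w (i1.trans hz)
          exact ⟨k1 z, he3 (3 * t - 1, s) k1 z, (hr s z (Or.inl (i3.trans hz))).2,
            (hr' s z (Or.inl (i4.trans hz))).2⟩
        · exact ⟨hd.out_f (3 * t - 1, s) z (i1.trans hz), he1 _ z (i2.trans hz),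
            (hr s z (Or.inr (i3.trans hz))).2, (hr' s z (Or.inr (i4.trans hz))).2⟩
      obtain ⟨k1, k2, k3, k4⟩ := key
      refine ⟨k1, ?_⟩
      show (1 - σ (3 * t)) * P.g s z + σ (3 * t) *
        ((1 - σ (3 * t - 2)) * e (3 * t - 1, s) z + σ (3 * t - 2) * P'.g s z) = py z
      rw [k2, k3, k4]
      ring
    · show F (σ (3 * 0 - 1)) = P.f
      rw [σ0 _ (by norm_num), h4]
    · funext s z
      rw [hG 0 s z (by norm_num), σ0 (3 * 0) (by norm_num)]
      ring
    · show F (σ (3 * 1 - 1)) = P'.f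
      rw [σ1 _ (by norm_num), h5]
    · funext s z
      rw [hG' 1 s z (by norm_num), σ1 (3 * 1 - 2) (by norm_num)]
      ring

theorem ntTrivial_iff : NTTrivial k n ↔ PosTrivial k n := by
  constructor
  · intro h P
    exact posHomotopic_iff.2 (h (toNT P))
  · intro h P
    obtain ⟨P', rfl⟩ := exists_pos P
    exact posHomotopic_iff.1 (h P')

end Pool.Agent.H84.NT
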