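import Pool.Agent.H84.NT.Wave

/-!
# Partners of nontrapping functions, I
-/

set_option autoImplicit false
set_option linter.unusedSectionVars false

open Set Filter Topology Metric Function
open scoped ContDiff NNReal

noncomputable section

namespace Pool.Agent.H84.NT

open Pool.Agent.X277.Sy Pool.Agent.H84.PP

variable {n : ℕ} {Q : Type} [NormedAddCommGroup Q] [NormedSpace ℝ Q]

/-- functions with a partner are nontrapping -/
theorem PosData.nonTrapping {R : ℝ} {f g : Q → E (n + 1) → ℝ} (h : PosData R f g) (q : Q) :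
    NonTrapping (f q) := by
  intro γ hγ hb
  obtain ⟨c, hc, hcb⟩ := h.lower q
  obtain ⟨B, hB⟩ := isBounded_iff_forall_norm_le.1 hb
  have hcont : Continuous (g q) := (slice_smooth h.smooth_g q).continuous
  obtain ⟨M, hM⟩ := (isCompact_closedBall (0 : E (n + 1)) B).exists_bound_of_continuousOn
    hcont.continuousOn
  have hM' : ∀ t, |g q (γ t)| ≤ M := fun t => hM (γ t) (by
    rw [mem_closedBall_zero_iff]
    exact hB _ ⟨t, rfl⟩)
  have hd : ∀ t, HasDerivAt (fun t => g q (γ t) - c * t)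
      (bracket (f q) (g q) (γ t) - c) t := by
    intro t
    have h1 : HasFDerivAt (g q) (fderiv ℝ (g q) (γ t)) (γ t) :=
      ((slice_smooth h.smooth_g q).differentiable (by simp) _).hasFDerivAt
    have h2 : HasDerivAt (fun t => g q (γ t)) (bracket (f q) (g q) (γ t)) t := by
      rw [bracket_eq]
      exact h1.comp_hasDerivAt t (hγ t)
    have h5 := h2.sub ((hasDerivAt_id t).const_mul c)
    rw [mul_one] at h5
    exact h5
  have hmono : Monotone (fun t => g q (γ t) - c * t) :=
    monotone_of_hasDerivAt_nonneg hd fun t => sub_nonneg.2 (hcb _)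
  have hM0 : 0 ≤ M := (abs_nonneg _).trans (hM' 0)
  have h1 := hmono (show (0 : ℝ) ≤ (2 * M + 1) / c by positivity)
  simp only [mul_zero, sub_zero] at h1
  rw [mul_div_cancel₀ _ hc.ne'] at h1
  have h2 := (abs_le.1 (hM' 0)).1
  have h3 := (abs_le.1 (hM' ((2 * M + 1) / c))).2
  linarith

/-- **Partners** of families of nontrapping functions -/
theorem exists_partner [FiniteDimensional ℝ Q] {R : ℝ} (hR : 0 ≤ R) {f : Q → E (n + 1) → ℝ}
    (h : NTData R f) {C : Set Q} (hC : IsCompact C) (hK : ∀ q, ∃ q' ∈ C, f q = f q') :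
    ∃ (R' : ℝ) (e : Q → E (n + 1) → ℝ), ContDiff ℝ ∞ (fun p : Q × E (n + 1) => e p.1 p.2) ∧
      (∀ q z, R' ≤ ‖z‖ → e q z = py z) ∧ (∀ q z, 0 < bracket (f q) (e q) z) ∧
      ∀ q, (∀ z, f q z = px z) → ∀ z, e q z = py z := by
  have : CompleteSpace Q := FiniteDimensional.complete ℝ Q
  obtain ⟨S, Ω, hRS, hΩ, hf, -, -⟩ := exists_wave' hR h hC hK
  obtain ⟨R', e, he, he1, he2, he3⟩ := hΩ.exists_escape (hR.trans hRS)
  refine ⟨R', e, he, fun q z hz => (he1 q z hz).2, fun q z => ?_, fun q hq z => ?_⟩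
  · have h1 := he2 q z
    have h2 : (fun z => px (Ω q z)) = f q := funext (hf q)
    rwa [h2] at h1
  · have h1 : ∀ w, Ω q w = w := fun w => wave_id hΩ (fun z => by rw [hf, hq]) w
    rw [he3 q (fun w _ => h1 w), h1]

end Pool.Agent.H84.NT
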