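import Pool.Agent.H84.NT.Part

/-!
# Scattering of nontrapping functions
-/

set_option autoImplicit false
set_option linter.unusedSectionVars false

open Set Filter Topology Metric Function
open scoped ContDiff NNReal

noncomputable section

namespace Pool.Agent.H84.NT

open Pool.Agent.X277.Sy Pool.Agent.H84.PP

variable {n : ℕ} {Q : Type} [NormedAddCommGroup Q] [NormedSpace ℝ Q]
variable {R : ℝ} {Ψ : Q → E (n + 1) → E (n + 1)}

/-- a wave map straightens the orbits -/
theorem orbit_straight (h : PFam R Ψ) {q : Q} {f : E (n + 1) → ℝ} (hf : ∀ z, px (Ψ q z) = f z)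
    {γ : ℝ → E (n + 1)} (hγ : IsOrbit f γ) (t : ℝ) : Ψ q (γ t) = Ψ q (γ 0) + t • ey := by
  have hf' : f = fun z => px (Ψ q z) := funext fun z => (hf z).symm
  have h1 : ∀ t, HasDerivAt (fun t => Ψ q (γ t) - t • (ey : E (n + 1))) 0 t := by
    intro t
    have h2 := (h.hasFDerivAt q (γ t)).comp_hasDerivAt t (hγ t)
    have h3 : fderiv ℝ (Ψ q) (γ t) (ham f (γ t)) = ey := by
      rw [ham_eq, hf', XH_comp (h.symp q) px.differentiable, px.fderiv, XH_px]
    rw [h3] at h2
    have h4 := h2.sub ((hasDerivAt_id t).smul_const (ey : E (n + 1)))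
    rw [one_smul, sub_self] at h4
    exact h4
  have h5 := is_const_of_deriv_eq_zero (fun t => (h1 t).differentiableAt)
    (fun t => (h1 t).deriv) t 0
  simp only [zero_smul, sub_zero] at h5
  rw [← h5]
  abel

theorem exists_orbit (h : PFam R Ψ) {q : Q} {f : E (n + 1) → ℝ} (hf : ∀ z, px (Ψ q z) = f z)
    (w : E (n + 1)) : ∃ γ, IsOrbit f γ ∧ ∀ t, Ψ q (γ t) = w + t • ey := by
  have hf' : f = fun z => px (Ψ q z) := funext fun z => (hf z).symm
  obtain ⟨χ, c1, c2, c3⟩ := (h.symp q).inverse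
  refine ⟨fun t => χ (w + t • ey), fun t => ?_, fun t => c3 _⟩
  have h1 : HasDerivAt (fun t : ℝ => w + t • (ey : E (n + 1))) ey t := by
    have := ((hasDerivAt_id t).smul_const (ey : E (n + 1))).const_add w
    simpa using this
  have h2 : HasFDerivAt χ (fderiv ℝ χ (w + t • ey)) (w + t • ey) :=
    (c1.differentiable (by simp) _).hasFDerivAt
  have h3 := h2.comp_hasDerivAt t h1
  refine h3.congr_deriv ?_
  refine h.fderiv_inj q (χ (w + t • ey)) ?_
  have h4 : fderiv ℝ (Ψ q) (χ (w + t • ey)) (ham f (χ (w + t • ey))) = ey := by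
    rw [ham_eq, hf', XH_comp (h.symp q) px.differentiable, px.fderiv, XH_px]
  rw [h4]
  have h5 := (h.hasFDerivAt q (χ (w + t • ey))).comp_hasDerivAt t h3
  have h6 : (fun t => Ψ q (χ (w + t • ey))) = fun t : ℝ => w + t • (ey : E (n + 1)) :=
    funext fun t => c3 _
  have h7 : HasDerivAt (fun t : ℝ => w + t • (ey : E (n + 1)))
      (fderiv ℝ (Ψ q) (χ (w + t • ey)) (fderiv ℝ χ (w + t • ey) ey)) t := by
    rw [← h6]
    exact h5
  exact h7.unique h1

theorem orbit_right (h : PFam R Ψ) {q : Q} {γ : ℝ → E (n + 1)} {w : E (n + 1)}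
    (hγ : ∀ t, Ψ q (γ t) = w + t • ey) {t : ℝ} (ht : 2 * R + |py w| ≤ t) :
    γ t = w + t • ey := by
  have h1 := (abs_le.1 (h.move q (γ t))).2
  rw [hγ t] at h1
  simp only [map_add, map_smul, py_ey, smul_eq_mul, mul_one] at h1
  rw [← hγ t, h.out q _ (Or.inl (by linarith [neg_abs_le (py w)]))]

theorem orbit_left (h : PFam R Ψ) {q : Q} {γ : ℝ → E (n + 1)} {w : E (n + 1)}
    (hγ : ∀ t, Ψ q (γ t) = w + t • ey) {t : ℝ} (ht : 2 * R + |py w| ≤ t) :
    py (γ (-t)) ≤ -R ∧ px (γ (-t)) = px w := by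
  have h1 := (abs_le.1 (h.move q (γ (-t)))).1
  rw [hγ (-t)] at h1
  simp only [map_add, map_smul, py_ey, smul_eq_mul, mul_one] at h1
  have h2 : py (γ (-t)) ≤ -R := by linarith [le_abs_self (py w)]
  refine ⟨h2, ?_⟩
  rw [← h.px_left h2, hγ (-t)]
  simp

/-- first components of wave maps are nontrapping -/
theorem PFam.nonTrapping (h : PFam R Ψ) {q : Q} {f : E (n + 1) → ℝ}
    (hf : ∀ z, px (Ψ q z) = f z) : NonTrapping f := by
  intro γ hγ hb
  obtain ⟨B, hB⟩ := isBounded_iff_forall_norm_le.1 hb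
  set w := Ψ q (γ 0) with hw
  have h1 : ∀ t, Ψ q (γ t) = w + t • ey := orbit_straight h hf hγ
  set t := max (2 * R + |py w|) (|B| + |py w| + 1) with ht
  have h2 := orbit_right h h1 (t := t) (le_max_left _ _)
  have h3 : ‖γ t‖ ≤ B := hB _ ⟨t, rfl⟩
  have h4 := abs_py_le (γ t)
  rw [h2] at h4
  have h5 : py (w + t • ey) = py w + t := by simp
  rw [h5, ← h2] at h4
  have h6 := le_abs_self (py w + t)
  have h7 : |B| + |py w| + 1 ≤ t := le_max_right _ _
  linarith [neg_abs_le (py w), le_abs_self B]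

/-- **Scattering maps are left ends of wave maps.** -/
theorem isScattering_iff (h : PFam R Ψ) {q : Q} {f : E (n + 1) → ℝ}
    (hf : ∀ z, px (Ψ q z) = f z) {τ : ℝ → SympCt n} :
    IsScattering f τ ↔ ∀ z, py z ≤ -R → pv (Ψ q z) = (τ (px z)).map (pv z) := by
  constructor
  · intro hτ z hz
    obtain ⟨γ, hγ, hw⟩ := exists_orbit h hf (Ψ q z)
    obtain ⟨T, hT⟩ := hτ γ hγ
    obtain ⟨χ, c1, c2, c3⟩ := (h.symp q).inverse
    have hinj : Injective (Ψ q) := fun a b hab => by rw [← c2 a, hab, c2]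
    set t := max (max T 0) (2 * R + |py (Ψ q z)|) with ht
    have ht0 : 0 ≤ t := (le_max_right _ _).trans (le_max_left _ _)
    have h1 : γ (-t) = z - t • ey := by
      apply hinj
      rw [hw, h.left q z t hz ht0, neg_smul]
      abel
    have h2 := hT t ((le_max_left _ _).trans (le_max_left _ _))
    rw [orbit_right h hw (le_max_right _ _), h1] at h2
    have e1 : (z - t • (ey : E (n + 1))) (0, 0) = px z := by
      show px (z - t • (ey : E (n + 1))) = px z
      simp
    rw [e1, rest_eq, rest_eq] at h2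
    simpa using h2
  · intro hτ γ hγ
    set w := Ψ q (γ 0) with hw
    have h1 : ∀ t, Ψ q (γ t) = w + t • ey := orbit_straight h hf hγ
    refine ⟨2 * R + |py w|, fun t ht => ?_⟩
    have h2 := orbit_left h h1 ht
    have h3 := hτ (γ (-t)) h2.1
    rw [h1 (-t)] at h3
    show pv (γ t) = (τ (px (γ (-t)))).map (pv (γ (-t)))
    rw [orbit_right h h1 ht, ← h3]
    simp

theorem left_unique {q : Q} {τ τ' : ℝ → SympCt n}
    (h1 : ∀ z, py z ≤ -R → pv (Ψ q z) = (τ (px z)).map (pv z))
    (h2 : ∀ z, py z ≤ -R → pv (Ψ q z) = (τ' (px z)).map (pv z)) (x : ℝ) : τ x = τ' x := by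
  apply SympCt.ext
  funext v
  have h3 := h1 (pt x (-R) v) (by rw [py_pt])
  have h4 := h2 (pt x (-R) v) (by rw [py_pt])
  rw [h3] at h4
  simpa using h4

variable {k : ℕ}

/-- the wave maps of a spheroid -/
theorem exists_wave_nt (P : NTFam k n) : ∃ (R S : ℝ)
    (Ω : EuclideanSpace ℝ (Fin k) → E (n + 1) → E (n + 1)), 0 < R ∧ R ≤ S ∧ PFam S Ω ∧
      (∀ s z, px (Ω s z) = P.f s z) ∧ ∀ s z, R ≤ ‖s‖ → Ω s z = z := by
  obtain ⟨R, hR, h, hfar, hK⟩ := NTFam.data P
  obtain ⟨S, Ω, hRS, hΩ, hf, -, -⟩ := exists_wave' hR.le h (isCompact_closedBall _ _) hK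
  exact ⟨R, S, Ω, hR, hRS, hΩ, hf, fun s z hs => wave_id hΩ (fun z => by
    rw [hf, hfar s z hs]) z⟩

theorem hasScattering_iff {P : NTFam k n} {Ω : EuclideanSpace ℝ (Fin k) → E (n + 1) → E (n + 1)}
    (h : PFam R Ω) (hf : ∀ s z, px (Ω s z) = P.f s z) {S : LoopSph k n} :
    HasScattering P S ↔ ∀ s z, py z ≤ -R → pv (Ω s z) = (S.fam (s, px z)).map (pv z) := by
  constructor
  · intro hS s
    exact (isScattering_iff h (hf s)).1 ((hS s (fun x => S.fam (s, x))).2 fun x => rfl)
  · intro hS s τ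
    rw [isScattering_iff h (hf s)]
    constructor
    · intro hτ x
      exact left_unique (τ := τ) (τ' := fun x => S.fam (s, x)) hτ (hS s) x
    · intro hτ z hz
      rw [hτ]
      exact hS s z hz

/-- **Existence of the scattering maps.** -/
theorem exists_scattering (hn : 0 < n) (P : NTFam k n) : ∃ S : LoopSph k n, HasScattering P S := by
  obtain ⟨R, S, Ω, hR, hRS, hΩ, hf, hid⟩ := exists_wave_nt P
  obtain ⟨τ, t1, t2, t3, t4, t5⟩ := hΩ.exists_left hn
  refine ⟨⟨τ, t1, max R S, fun q hq => ?_, fun q => supp_mono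
    (closedBall_subset_closedBall (le_max_right _ _)) (t4 q)⟩, (hasScattering_iff hΩ hf).2 t2⟩
  obtain ⟨s, x⟩ := q
  have h1 : ‖((s, x) : EuclideanSpace ℝ (Fin k) × ℝ)‖ = max ‖s‖ ‖x‖ := rfl
  rw [h1] at hq
  rcases le_max_iff.1 hq with h2 | h2
  · exact t5 s (fun z => hid s z ((le_max_left _ _).trans h2)) x
  · exact t3 s x ((le_max_right _ _).trans h2)

theorem scattering_unique {P : NTFam k n} {S S' : LoopSph k n} (h : HasScattering P S)
    (h' : HasScattering P S') : S = S' := by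
  apply LoopSph.ext
  funext ⟨s, x⟩
  exact (h' s (fun x => S.fam (s, x))).1 ((h s (fun x => S.fam (s, x))).2 fun x => rfl) x

/-- **The group of symplectomorphisms acts freely.** -/
theorem free (P : NTFam k n) {φ ψ : Spheroid k (n + 1)}
    (h : ∀ s z, P.f s ((φ.fam s).map z) = P.f s ((ψ.fam s).map z)) : φ.fam = ψ.fam := by
  obtain ⟨R, S, Ω, hR, hRS, hΩ, hf, hid⟩ := exists_wave_nt P
  obtain ⟨r, -, hr⟩ := φ.bounded
  obtain ⟨r', -, hr'⟩ := ψ.bounded
  funext s
  apply SympCt.ext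
  have key : ∀ {χ : Spheroid k (n + 1)} {ρ : ℝ}, (∀ s, SupportedIn (closedBall 0 ρ)
      (χ.fam s).map) → ∀ z, max S (ρ + 1) ≤ py z → (Ω s ∘ (χ.fam s).map) z = z := by
    intro χ ρ hχ z hz
    have h1 : ρ < ‖z‖ := by
      have := (le_max_right S (ρ + 1)).trans hz
      linarith [le_abs_self (py z), abs_py_le z]
    show Ω s ((χ.fam s).map z) = z
    rw [far_fix (hχ s) h1, hΩ.out s z (Or.inl ((le_max_left _ _).trans hz))]
  have h1 : Ω s ∘ (φ.fam s).map = Ω s ∘ (ψ.fam s).map := by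
    refine unique_of_px ((hΩ.symp s).comp (φ.fam s).isSymp) ((hΩ.symp s).comp (ψ.fam s).isSymp)
      (R := max (max S (r + 1)) (max S (r' + 1)))
      (fun z hz => key hr z ((le_max_left _ _).trans hz))
      (fun z hz => key hr' z ((le_max_right _ _).trans hz)) (fun z => ?_)
    show px (Ω s ((φ.fam s).map z)) = px (Ω s ((ψ.fam s).map z))
    rw [hf, hf, h]
  obtain ⟨χ, c1, c2, c3⟩ := (hΩ.symp s).inverse
  funext z
  have h2 : Ω s ((φ.fam s).map z) = Ω s ((ψ.fam s).map z) := congrFun h1 z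
  rw [← c2 ((φ.fam s).map z), h2, c2]

/-- **Equal scattering**: the functions differ by symplectomorphisms. -/
theorem same_scattering (hn : 0 < n) {P P' : NTFam k n} {S S' : LoopSph k n}
    (h : HasScattering P S) (h' : HasScattering P' S') :
    S = S' ↔ ∃ φ : Spheroid k (n + 1), ∀ s z, P'.f s z = P.f s ((φ.fam s).map z) := by
  obtain ⟨R₀, R₁, Ω, hR, hRS, hΩ₁, hf, hid⟩ := exists_wave_nt P
  obtain ⟨R₀', R₁', Ω', hR', hRS', hΩ₁', hf', hid'⟩ := exists_wave_nt P'
  set R := max R₁ R₁' with hRdef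
  have hR0 : 0 ≤ R := by linarith [le_max_left R₁ R₁']
  have hΩ : PFam R Ω := hΩ₁.mono (le_max_left _ _)
  have hΩ' : PFam R Ω' := hΩ₁'.mono (le_max_right _ _)
  have hS := (hasScattering_iff hΩ hf).1 h
  have hS' := (hasScattering_iff hΩ' hf').1 h'
  constructor
  · rintro rfl
    obtain ⟨χ, hχ1, hχ2, hχ⟩ := hΩ.exists_inv hR0
    have hΨ : PFam (2 * (2 * R)) (fun s z => χ s (Ω' s z)) :=
      hχ.mul (by linarith) (hΩ'.mono (by linarith))
    obtain ⟨φ, φ1, φ2, φ3⟩ := hΨ.toSymp hn (fun s z hz => by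
      show pv (χ s (Ω' s z)) = pv z
      set w := Ω' s z with hw
      have h1 := abs_le.1 (hΩ'.move s z)
      have h2 : py w ≤ -(3 * R) := by
        rw [hw]
        linarith [h1.2]
      set z' := χ s w with hz'
      have h3 : Ω s z' = w := hχ2 s w
      have h4 := abs_le.1 (hΩ.move s z')
      rw [h3] at h4
      have h5 : py z' ≤ -R := by linarith [h4.1]
      have h6 := hS s z' h5
      have h7 := hS' s z (by linarith)
      have h8 : px z' = px z := by
        have h9 := hΩ.px_left (q := s) h5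
        rw [h3] at h9
        rw [← h9, hw]
        exact hΩ'.px_left (by linarith)
      rw [h3] at h6
      rw [← hw, h6, h8] at h7
      have h10 := congrArg (S.fam (s, px z))⁻¹.map h7
      rwa [inv_map_map, inv_map_map] at h10)
    refine ⟨⟨φ, φ1, max (max R₀ R₀') (3 * (2 * (2 * R))), fun s hs => ?_, fun s => supp_mono
      (closedBall_subset_closedBall (le_max_right _ _)) (φ3 s)⟩, fun s z => ?_⟩
    · apply SympCt.ext
      rw [φ2]
      funext z
      have h1 : R₀ ≤ ‖s‖ := ((le_max_left _ _).trans (le_max_left _ _)).trans hs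
      have h2 : R₀' ≤ ‖s‖ := ((le_max_right _ _).trans (le_max_left _ _)).trans hs
      show χ s (Ω' s z) = z
      rw [hid' s z h2]
      have h3 := hχ1 s z
      rwa [hid s z h1] at h3
    · show P'.f s z = P.f s ((φ s).map z)
      rw [φ2]
      show P'.f s z = P.f s (χ s (Ω' s z))
      rw [← hf, hχ2, hf']
  · rintro ⟨φ, hφ⟩
    obtain ⟨r, -, hr⟩ := φ.bounded
    have hR1 : R ≤ max R (r + 1) := le_max_left _ _
    have key : ∀ s, Ω' s = Ω s ∘ (φ.fam s).map := by
      intro s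
      refine unique_of_px (hΩ'.symp s) ((hΩ.symp s).comp (φ.fam s).isSymp) (R := max R (r + 1))
        (fun z hz => hΩ'.out s z (Or.inl (hR1.trans hz))) (fun z hz => ?_) (fun z => ?_)
      · have h1 : r < ‖z‖ := by
          have := (le_max_right R (r + 1)).trans hz
          linarith [le_abs_self (py z), abs_py_le z]
        show Ω s ((φ.fam s).map z) = z
        rw [far_fix (hr s) h1, hΩ.out s z (Or.inl (hR1.trans hz))]
      · show px (Ω' s z) = px (Ω s ((φ.fam s).map z))
        rw [hf', hφ, hf]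
    apply LoopSph.ext
    funext ⟨s, x⟩
    refine left_unique (R := max R (r + 1)) (Ψ := Ω) (q := s) (τ := fun x => S.fam (s, x))
      (τ' := fun x => S'.fam (s, x)) (fun z hz => hS s z (by linarith)) (fun z hz => ?_) x
    have h1 : r < ‖z‖ := by
      have := le_max_right R (r + 1)
      linarith [neg_abs_le (py z), abs_py_le z]
    have h2 := hS' s z (by linarith)
    rw [key] at h2
    change pv (Ω s ((φ.fam s).map z)) = _ at h2
    rwa [far_fix (hr s) h1] at h2

end Pool.Agent.H84.NT
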