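import Pool.Agent.H84.NT.PartA

/-!
# Spheroids of nontrapping functions
-/

set_option autoImplicit false
set_option linter.unusedSectionVars false

open Set Filter Topology Metric Function
open scoped ContDiff NNReal

noncomputable section

namespace Pool.Agent.H84.NT

open Pool.Agent.X277.Sy Pool.Agent.H84.PP

variable {n : ℕ}

/-- The spheroid of the first functions of a spheroid of positive pairs. -/
def toNT {k : ℕ} (P : PosFam k n) : NTFam k n where
  f := P.f
  smooth := P.smooth_f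
  nontrapping s := by
    obtain ⟨r, hr⟩ := P.bounded
    exact PosData.nonTrapping (R := r) (f := P.f) (g := P.g) ⟨P.smooth_f, P.smooth_g,
      fun s z hz => (hr s z (Or.inr hz)).1, fun s z hz => (hr s z (Or.inr hz)).2, P.pos⟩ s
  bounded := by
    obtain ⟨r, hr⟩ := P.bounded
    exact ⟨r, fun s z hz => (hr s z hz).1⟩

theorem ofSymp_smooth {k : ℕ} (φ : Spheroid k (n + 1)) :
    ContDiff ℝ ∞ (fun p : EuclideanSpace ℝ (Fin k) × E (n + 1) =>
      (φ.fam p.1).map p.2 (0, 0)) := (ofSymp φ).smooth_f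

theorem ofSymp_nonTrapping {k : ℕ} (φ : Spheroid k (n + 1)) (s : EuclideanSpace ℝ (Fin k)) :
    NonTrapping (fun z => (φ.fam s).map z (0, 0)) := (toNT (ofSymp φ)).nontrapping s

theorem ofSymp_bounded {k : ℕ} (φ : Spheroid k (n + 1)) :
    ∃ r : ℝ, ∀ s z, (r ≤ ‖s‖ ∨ r ≤ ‖z‖) → (φ.fam s).map z (0, 0) = z (0, 0) :=
  (toNT (ofSymp φ)).bounded

/-- The spheroid of the functions `x_1 ∘ φ_s` of a spheroid of symplectomorphisms `φ_s`. -/
def ofSympNT {k : ℕ} (φ : Spheroid k (n + 1)) : NTFam k n where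
  f s z := (φ.fam s).map z (0, 0)
  smooth := ofSymp_smooth φ
  nontrapping := ofSymp_nonTrapping φ
  bounded := ofSymp_bounded φ

theorem toNT_ofSymp {k : ℕ} (φ : Spheroid k (n + 1)) : toNT (ofSymp φ) = ofSympNT φ := rfl

/-- Every smooth `k`-spheroid of nontrapping functions on `ℝ^{2n+2}` is contractible. -/
def NTTrivial (k n : ℕ) : Prop :=
  ∀ P : NTFam k n, NTHomotopic P (ofSympNT (trivialSpheroid k (n + 1)))

/-- The constant spheroid. -/
def trivialLoop (k n : ℕ) : LoopSph k n where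
  fam _ := 1
  smooth := isSmoothFamily_const 1
  bounded := ⟨0, fun _ _ => rfl, fun _ _ _ => rfl⟩

end Pool.Agent.H84.NT
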