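import Pool.Agent.H84.PP.Main
import Pool.Agent.H84.NT.Defs

/-!
# Wave maps of nontrapping Hamiltonians
-/

set_option autoImplicit false
set_option linter.unusedSectionVars false

open Set Filter Topology Metric Function
open scoped ContDiff NNReal

noncomputable section

namespace Pool.Agent.H84.NT

open Pool.Agent.X277.Sy Pool.Agent.H84.PP

variable {n : ℕ} {Q : Type} [NormedAddCommGroup Q] [NormedSpace ℝ Q]

theorem ham_eq {m : ℕ} (f : E m → ℝ) (z : E m) : ham f z = XH (fderiv ℝ f z) := rfl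

theorem rest_eq (z : E (n + 1)) : rest z = pv z := rfl

theorem norm_add_ey (z : E (n + 1)) (t : ℝ) :
    ‖z + t • (ey : E (n + 1))‖ ^ 2 = ‖z‖ ^ 2 + 2 * (t * py z) + t ^ 2 := by
  rw [norm_add_sq_real, norm_smul, norm_ey, mul_one, Real.norm_eq_abs, sq_abs, inner_smul_right]
  congr 3
  simp [ey, py_apply, EuclideanSpace.inner_single_right]

theorem norm_le_add_ey {z : E (n + 1)} {t : ℝ} (h : 0 ≤ t * py z) :
    ‖z‖ ≤ ‖z + t • (ey : E (n + 1))‖ := by
  have h1 := norm_add_ey z t
  have h2 : ‖z‖ ^ 2 ≤ ‖z + t • (ey : E (n + 1))‖ ^ 2 := by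
    rw [h1]
    nlinarith [sq_nonneg t]
  exact le_of_sq_le_sq h2 (norm_nonneg _)

/-- A smooth family of nontrapping functions `f` with `f = x_1` for `‖z‖ ≥ R`. -/
structure NTData (R : ℝ) (f : Q → E (n + 1) → ℝ) : Prop where
  smooth_f : ContDiff ℝ ∞ (fun p : Q × E (n + 1) => f p.1 p.2)
  out_f : ∀ q z, R ≤ ‖z‖ → f q z = px z
  nt : ∀ q, NonTrapping (f q)

theorem NTData.fderiv_f {R : ℝ} {f : Q → E (n + 1) → ℝ} (h : NTData R f) (q : Q) {z : E (n + 1)}
    (hz : R < ‖z‖) : fderiv ℝ (f q) z = px := by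
  have h1 : f q =ᶠ[𝓝 z] px := by
    filter_upwards [(isOpen_lt continuous_const continuous_norm).mem_nhds hz] with w hw
    exact h.out_f q w (le_of_lt hw)
  rw [h1.fderiv_eq]
  exact px.fderiv

/-- **Escape**: a flow without bounded orbits, straight off a ball, escapes to the right. -/
theorem escape {R : ℝ} (Φ : ℝ → E (n + 1) → E (n + 1))
    (hc : ∀ t, Continuous (Φ t)) (h0 : ∀ z, Φ 0 z = z)
    (hadd : ∀ z t s, Φ (t + s) z = Φ t (Φ s z))
    (hpos : ∀ z t, R < ‖z‖ → 0 ≤ py z → 0 ≤ t → Φ t z = z + t • ey)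
    (hneg : ∀ z t, R < ‖z‖ → py z ≤ 0 → t ≤ 0 → Φ t z = z + t • ey)
    (hnt : ∀ z, ¬ Bornology.IsBounded (range fun t => Φ t z)) (B : ℝ) (z : E (n + 1)) :
    ∃ T : ℝ, 0 ≤ T ∧ ∀ t, T ≤ t → B ≤ py (Φ t z) := by
  by_cases hex : ∃ t0 : ℝ, 0 ≤ t0 ∧ R < ‖Φ t0 z‖ ∧ 0 ≤ py (Φ t0 z)
  · obtain ⟨t0, ht0, h1, h2⟩ := hex
    refine ⟨max t0 (t0 + B), ht0.trans (le_max_left _ _), fun t ht => ?_⟩
    have h3 : t0 ≤ t := (le_max_left _ _).trans ht
    have h4 : t0 + B ≤ t := (le_max_right _ _).trans ht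
    have h5 : Φ t z = Φ t0 z + (t - t0) • ey := by
      rw [← hpos _ (t - t0) h1 h2 (by linarith), ← hadd, sub_add_cancel]
    rw [h5, map_add, map_smul, py_ey, smul_eq_mul, mul_one]
    linarith
  · exfalso
    push Not at hex
    set t1 : ℝ := max 0 (-py z) with ht1
    have hin : ∀ t, t1 ≤ t → ‖Φ t z‖ ≤ R := by
      intro t ht
      have h3 : 0 ≤ t := (le_max_left _ _).trans ht
      have h4 : -py z ≤ t := (le_max_right _ _).trans ht
      by_contra hcon
      push Not at hcon
      have h5 := hex t h3 hcon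
      have h6 := hneg _ (-t) hcon h5.le (by linarith)
      rw [← hadd, neg_add_cancel, h0] at h6
      have h7 : py z = py (Φ t z) - t := by
        conv_lhs => rw [h6]
        rw [map_add, map_smul, py_ey, smul_eq_mul, mul_one, sub_eq_add_neg]
      linarith
    -- the nested compact sets
    let K : ℕ → Set (E (n + 1)) := fun m => {w | ∀ t : ℝ, |t| ≤ (m : ℝ) → ‖Φ t w‖ ≤ R}
    have hKc : ∀ m, IsClosed (K m) := by
      intro m
      have h1 : K m = ⋂ (t : ℝ) (_ : |t| ≤ (m : ℝ)), {w | ‖Φ t w‖ ≤ R} := by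
        ext w
        simp [K]
      rw [h1]
      exact isClosed_iInter fun t => isClosed_iInter fun _ =>
        isClosed_le ((hc t).norm) continuous_const
    have hK0 : IsCompact (K 0) := by
      refine IsCompact.of_isClosed_subset (isCompact_closedBall (0 : E (n + 1)) R) (hKc 0) ?_
      intro w hw
      have h1 := hw 0 (by simp)
      rw [h0] at h1
      simpa using h1
    obtain ⟨w, hw⟩ := IsCompact.nonempty_iInter_of_sequence_nonempty_isCompact_isClosed K
      (fun m w hw t ht => hw t (ht.trans (by push_cast; linarith)))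
      (fun m => ⟨Φ (t1 + m) z, fun t ht => by
        rw [← hadd]
        refine hin _ ?_
        have := neg_abs_le t
        linarith⟩) hK0 hKc
    refine hnt w ?_
    refine (isBounded_iff_forall_norm_le).2 ⟨R, ?_⟩
    rintro _ ⟨t, rfl⟩
    obtain ⟨m, hm⟩ := exists_nat_ge |t|
    exact (mem_iInter.1 hw m) t hm

/-- **Wave maps.** -/
theorem exists_wave' [FiniteDimensional ℝ Q] {R : ℝ} (hR : 0 ≤ R) {f : Q → E (n + 1) → ℝ}
    (h : NTData R f) {C : Set Q} (hC : IsCompact C) (hK : ∀ q, ∃ q' ∈ C, f q = f q') :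
    ∃ (S : ℝ) (Ω : Q → E (n + 1) → E (n + 1)), R ≤ S ∧ PFam S Ω ∧
      (∀ q z, px (Ω q z) = f q z) ∧
      (∀ q γ, IsOrbit (f q) γ → ∀ t, Ω q (γ t) = Ω q (γ 0) + t • ey) ∧
      ∀ q z, ∃ γ, IsOrbit (f q) γ ∧ γ 0 = z := by
  have hfs := h.smooth_f
  set R' : ℝ := R + 1 with hR'
  -- the field
  let F : Q × E (n + 1) → E (n + 1) := fun p => XH (fderiv ℝ (f p.1) p.2) - ey
  have hF0 : ∀ q z, R < ‖z‖ → F (q, z) = 0 := by
    intro q z hz
    show XH (fderiv ℝ (f q) z) - ey = 0
    rw [h.fderiv_f q hz, XH_px, sub_self]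
  have hF : VClass R' F := by
    refine ⟨(XH.contDiff.comp (contDiff_fderiv_family hfs)).sub contDiff_const, ?_, ?_⟩
    · intro q z hz
      exact hF0 q z (by linarith [hz.norm_le])
    · intro q z t hz ht
      have h1 : R < ‖z‖ := by
        have := neg_abs_le (py z)
        linarith [abs_py_le z]
      have h2 : R < ‖z - t • ey‖ := by
        have h3 := abs_py_le (z - t • ey)
        have h4 : py (z - t • ey) = py z - t := by simp
        rw [h4] at h3
        have := neg_abs_le (py z - t)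
        linarith
      rw [hF0 q _ h1, hF0 q _ h2]
  obtain ⟨Φ, Φs, Φ0, Φd, Φu⟩ := hF.exists_flow (by linarith) 1 (0 : Q)
  have hfield : ∀ q z (t : ℝ), (1 : ℝ) • (ey : E (n + 1)) + F (q + t • (0 : Q), z) =
      XH (fderiv ℝ (f q) z) := by
    intro q z t
    show (1 : ℝ) • (ey : E (n + 1)) + (XH (fderiv ℝ (f (q + t • (0 : Q))) z) - ey) = _
    rw [smul_zero, add_zero, one_smul]
    abel
  simp only [hfield] at Φd Φu
  have Φu' : ∀ q (γ : ℝ → E (n + 1)), (∀ t, HasDerivAt γ (XH (fderiv ℝ (f q) (γ t))) t) →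
      ∀ t, γ t = Φ t q (γ 0) := by
    intro q γ hγ t
    have h1 := neg_abs_le t
    have h2 := le_abs_self t
    have h3 := abs_nonneg t
    exact Φu q γ (-(|t| + 1)) (|t| + 1) (by linarith) (by linarith) (fun s _ => hγ s) t
      ⟨by linarith, by linarith⟩
  -- the group law
  have Φadd : ∀ q z (t s : ℝ), Φ (t + s) q z = Φ t q (Φ s q z) := by
    intro q z t s
    have h1 := Φu' q (fun t => Φ (t + s) q z) (fun t => by
      have h2 := (Φd q z (t + s)).scomp t ((hasDerivAt_id t).add_const s)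
      rw [one_smul] at h2
      exact h2) t
    simp only [zero_add] at h1
    exact h1
  -- conservation of `f`
  have hf_diff : ∀ q z, HasFDerivAt (f q) (fderiv ℝ (f q) z) z := fun q z =>
    ((slice_smooth hfs q).differentiable (by simp) z).hasFDerivAt
  have hcons : ∀ q z t, f q (Φ t q z) = f q z := by
    intro q z t
    have h1 : ∀ t, HasDerivAt (fun t => f q (Φ t q z)) 0 t := by
      intro t
      have h2 := (hf_diff q (Φ t q z)).comp_hasDerivAt t (Φd q z t)
      rw [form_XH_self] at h2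
      exact h2
    have h3 := is_const_of_deriv_eq_zero (fun t => (h1 t).differentiableAt)
      (fun t => (h1 t).deriv) t 0
    simpa [Φ0] using h3
  -- explicit trajectories
  have hline : ∀ (z : E (n + 1)) (t : ℝ), HasDerivAt (fun t : ℝ => z + t • (ey : E (n + 1))) ey t := by
    intro z t
    have := ((hasDerivAt_id t).smul_const (ey : E (n + 1))).const_add z
    simpa using this
  have hlinear : ∀ q z (a b : ℝ), a < 0 → 0 < b → (∀ t ∈ Ioo a b, R < ‖z + t • ey‖) →
      ∀ t ∈ Ioo a b, Φ t q z = z + t • ey := by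
    intro q z a b ha hb hz t ht
    have h1 := Φu q (fun t : ℝ => z + t • (ey : E (n + 1))) a b ha hb (fun s hs => by
      have h2 : XH (fderiv ℝ (f q) (z + s • ey)) = ey := by
        rw [h.fderiv_f q (hz s hs), XH_px]
      rw [h2]
      exact hline z s) t ht
    simp only [zero_smul, add_zero] at h1
    exact h1.symm
  have hpyt : ∀ (z : E (n + 1)) (t : ℝ), py (z + t • ey) = py z + t := by
    intro z t
    simp
  have hright : ∀ q z (t : ℝ), R' ≤ py z → 0 ≤ t → Φ t q z = z + t • ey := by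
    intro q z t hz ht
    refine hlinear q z (-(1 / 2)) (t + 1) (by norm_num) (by linarith) (fun s hs => ?_) t
      ⟨by linarith, by linarith⟩
    have h1 := abs_py_le (z + s • ey)
    rw [hpyt] at h1
    have h2 := le_abs_self (py z + s)
    linarith [hs.1]
  have hleft : ∀ q z (t : ℝ), py z ≤ -R' → t ≤ 0 → Φ t q z = z + t • ey := by
    intro q z t hz ht
    refine hlinear q z (t - 1) (1 / 2) (by linarith) (by norm_num) (fun s hs => ?_) t
      ⟨by linarith, by linarith⟩
    have h1 := abs_py_le (z + s • ey)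
    rw [hpyt] at h1
    have h2 := neg_abs_le (py z + s)
    linarith [hs.2]
  have hside : ∀ q z (t : ℝ), (R' ≤ |px z| ∨ R' ≤ ‖pv z‖) → Φ t q z = z + t • ey := by
    intro q z t hz
    have h1 := neg_abs_le t
    have h2 := le_abs_self t
    have h3 := abs_nonneg t
    refine hlinear q z (-(|t| + 1)) (|t| + 1) (by linarith) (by linarith) (fun s hs => ?_) t
      ⟨by linarith, by linarith⟩
    rcases side_add hz s with h4 | h4
    · exact lt_of_lt_of_le (by linarith) (h4.trans (abs_px_le _))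
    · exact lt_of_lt_of_le (by linarith) (h4.trans (norm_pv_le _))
  -- escape
  have hesc : ∀ q z, ∃ T : ℝ, 0 ≤ T ∧ ∀ t, T ≤ t → R' + 1 ≤ py (Φ t q z) := by
    intro q z
    have hopen : ∀ z : E (n + 1), R < ‖z‖ → ∃ ε > 0, ∀ s : ℝ, |s| < ε → R < ‖z + s • ey‖ := by
      intro z hz
      have h1 : Continuous (fun s : ℝ => ‖z + s • (ey : E (n + 1))‖) := by fun_prop
      have h2 : ∀ᶠ s in 𝓝 (0 : ℝ), R < ‖z + s • (ey : E (n + 1))‖ := by
        refine h1.continuousAt.eventually_const_lt ?_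
        simpa using hz
      obtain ⟨ε, hε, h3⟩ := Metric.eventually_nhds_iff.1 h2
      exact ⟨ε, hε, fun s hs => h3 (by simpa [Real.dist_eq] using hs)⟩
    refine escape (R := R) (fun t => Φ t q) (fun t => ?_) (Φ0 q) (fun z t s => Φadd q z t s)
      (fun z t hz hpy ht => ?_) (fun z t hz hpy ht => ?_) (fun z hb => ?_) (R' + 1) z
    · exact (Φs.comp (contDiff_const.prodMk (contDiff_const.prodMk contDiff_id))).continuous
    · obtain ⟨ε, hε, h1⟩ := hopen z hz
      refine hlinear q z (-ε) (t + 1) (by linarith) (by linarith) (fun s hs => ?_) t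
        ⟨by linarith, by linarith⟩
      rcases le_total 0 s with h2 | h2
      · exact hz.trans_le (norm_le_add_ey (mul_nonneg h2 hpy))
      · exact h1 s (by rw [abs_of_nonpos h2]; linarith [hs.1])
    · obtain ⟨ε, hε, h1⟩ := hopen z hz
      refine hlinear q z (t - 1) ε (by linarith) hε (fun s hs => ?_) t
        ⟨by linarith, by linarith⟩
      rcases le_total s 0 with h2 | h2
      · exact hz.trans_le (norm_le_add_ey (mul_nonneg_of_nonpos_of_nonpos h2 hpy))
      · exact h1 s (by rw [abs_of_nonneg h2]; exact hs.2)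
    · exact h.nt q (fun t => Φ t q z) (fun t => Φd q z t) hb
  choose T hT0 hT using hesc
  -- the wave map
  let Ω : Q → E (n + 1) → E (n + 1) := fun q z => Φ (T q z) q z - T q z • ey
  have hstable : ∀ q z (t t' : ℝ), R' ≤ py (Φ t q z) → t ≤ t' →
      Φ t' q z - t' • ey = Φ t q z - t • ey := by
    intro q z t t' ht htt
    have h1 : t' = (t' - t) + t := by ring
    rw [h1, Φadd, hright q _ (t' - t) ht (by linarith), ← h1, sub_smul]
    abel
  have hΩ : ∀ q z (t : ℝ), R' ≤ py (Φ t q z) → Ω q z = Φ t q z - t • ey := by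
    intro q z t ht
    have h1 := hT q z (T q z) le_rfl
    show Φ (T q z) q z - T q z • ey = _
    rw [← hstable q z (T q z) (max (T q z) t) (by linarith) (le_max_left _ _),
      ← hstable q z t (max (T q z) t) ht (le_max_right _ _)]
  -- smoothness
  have hΩs : ContDiff ℝ ∞ (fun p : Q × E (n + 1) => Ω p.1 p.2) := by
    rw [contDiff_iff_contDiffAt]
    rintro ⟨q, z⟩
    set t := T q z with ht
    have hc : ContDiff ℝ ∞ (fun p : Q × E (n + 1) => Φ t p.1 p.2) :=
      Φs.comp (contDiff_const.prodMk contDiff_id)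
    have h1 : (fun p : Q × E (n + 1) => Ω p.1 p.2) =ᶠ[𝓝 (q, z)]
        fun p => Φ t p.1 p.2 - t • ey := by
      have h2 : ∀ᶠ p : Q × E (n + 1) in 𝓝 (q, z), R' < py (Φ t p.1 p.2) := by
        have h3 : Continuous (fun p : Q × E (n + 1) => py (Φ t p.1 p.2)) :=
          py.continuous.comp hc.continuous
        refine (isOpen_lt continuous_const h3).mem_nhds ?_
        have h4 := hT q z t le_rfl
        show R' < py (Φ t q z)
        linarith
      filter_upwards [h2] with p hp
      exact hΩ p.1 p.2 t hp.le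
    exact ContDiffAt.congr_of_eventuallyEq (hc.sub contDiff_const).contDiffAt h1
  -- the inverse
  let τ : E (n + 1) → ℝ := fun w => R' + 1 + py w ^ 2
  have hτ : ∀ w, R' ≤ py w + τ w := by
    intro w
    show R' ≤ py w + (R' + 1 + py w ^ 2)
    nlinarith [sq_nonneg (py w + 1), sq_nonneg (py w)]
  have hτ0 : ∀ w, 0 ≤ τ w := by
    intro w
    show 0 ≤ R' + 1 + py w ^ 2
    have := sq_nonneg (py w)
    linarith
  have hτs : ContDiff ℝ ∞ τ := contDiff_const.add (py.contDiff.pow 2)
  let χ : Q → E (n + 1) → E (n + 1) := fun q w => Φ (-(τ w)) q (w + τ w • ey)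
  have hback : ∀ q z (t : ℝ), Φ t q (Φ (-t) q z) = z := by
    intro q z t
    rw [← Φadd, add_neg_cancel, Φ0]
  have hback' : ∀ q z (t : ℝ), Φ (-t) q (Φ t q z) = z := by
    intro q z t
    rw [← Φadd, neg_add_cancel, Φ0]
  have hχ1 : ∀ q w, Ω q (χ q w) = w := by
    intro q w
    have h1 : Φ (τ w) q (χ q w) = w + τ w • ey := hback q _ _
    rw [hΩ q (χ q w) (τ w) (by rw [h1, hpyt]; exact hτ w), h1]
    abel
  have hχ2 : ∀ q z, χ q (Ω q z) = z := by
    intro q z
    set w := Ω q z with hw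
    set t := max (T q z) (τ w) with ht
    have h1 : Φ t q z = w + t • ey := by
      have h2 := hΩ q z t (by linarith [hT q z t (le_max_left _ _)])
      rw [← hw] at h2
      rw [h2]
      abel
    have h3 : Φ (t - τ w) q (w + τ w • ey) = w + t • ey := by
      rw [hright q _ _ (by rw [hpyt]; exact hτ w) (sub_nonneg.2 (le_max_right _ _)), sub_smul]
      abel
    show Φ (-(τ w)) q (w + τ w • ey) = z
    have h4 : w + τ w • ey = Φ (-(t - τ w)) q (w + t • ey) := by
      rw [← h3, hback']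
    rw [h4, ← Φadd, show -(τ w) + -(t - τ w) = -t by ring, ← h1, hback']
  have hχs : ∀ q, ContDiff ℝ ∞ (χ q) := by
    intro q
    have h1 : ContDiff ℝ ∞ (fun w : E (n + 1) => (-(τ w), q, w + τ w • (ey : E (n + 1)))) :=
      hτs.neg.prodMk (contDiff_const.prodMk (contDiff_id.add (hτs.smul contDiff_const)))
    exact Φs.comp h1
  -- symplecticity
  have hΦsymp : ∀ q (t : ℝ) z u v, omega (fderiv ℝ (Φ t q) z u) (fderiv ℝ (Φ t q) z v) =
      omega u v := by
    intro q t z u v
    have h1 : ContDiff ℝ ∞ (fun p : ℝ × E (n + 1) => Φ p.1 q p.2) :=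
      Φs.comp (contDiff_fst.prodMk (contDiff_const.prodMk contDiff_snd))
    refine symplectic_of_flow h1 (G := fun _ z => 0 + XH (fderiv ℝ (f q) z))
      (fun _ => (ham_sp (slice_smooth hfs q) 0 z u v).1)
      (fun _ z u v => (ham_sp (slice_smooth hfs q) 0 z u v).2) (fun z => Φ0 q z)
      (fun z t => ?_) t z u v
    show HasDerivAt (fun t => Φ t q z) (0 + XH (fderiv ℝ (f q) (Φ t q z))) t
    rw [zero_add]
    exact Φd q z t
  have hΩsymp : ∀ q, IsSymplectomorphism (Ω q) := by
    intro q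
    refine ⟨hΩs.comp (contDiff_const.prodMk contDiff_id), ⟨χ q, hχs q, hχ2 q, hχ1 q⟩,
      fun z u v => ?_⟩
    set t := T q z with ht
    have hc : ContDiff ℝ ∞ (Φ t q) := Φs.comp (contDiff_const.prodMk (contDiff_const.prodMk
      contDiff_id))
    have h1 : Ω q =ᶠ[𝓝 z] fun z => Φ t q z - t • ey := by
      have h2 : ∀ᶠ w in 𝓝 z, R' < py (Φ t q w) := by
        refine (isOpen_lt continuous_const (py.continuous.comp hc.continuous)).mem_nhds ?_
        have h4 := hT q z t le_rfl
        show R' < py (Φ t q z)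
        linarith
      filter_upwards [h2] with w hw
      exact hΩ q w t hw.le
    have h3 : fderiv ℝ (Ω q) z = fderiv ℝ (Φ t q) z := by
      rw [h1.fderiv_eq, fderiv_sub_const]
    rw [h3]
    exact hΦsymp q t z u v
  -- behaviour in the outer and the left region
  have hout : ∀ q z, Out R' z → Ω q z = z := by
    intro q z hz
    rcases hz with hz | hz
    · rw [hΩ q z 0 (by rw [Φ0]; exact hz), Φ0, zero_smul, sub_zero]
    · show Φ (T q z) q z - T q z • ey = z
      rw [hside q z _ hz, add_sub_cancel_right]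
  have hleftΩ : ∀ q z (t : ℝ), py z ≤ -R' → 0 ≤ t → Ω q (z - t • ey) = Ω q z - t • ey := by
    intro q z t hz ht
    have h1 : Φ t q (z - t • ey) = z := by
      have h2 := hleft q z (-t) hz (by linarith)
      rw [neg_smul, ← sub_eq_add_neg] at h2
      rw [← h2, hback]
    have h3 : Φ (T q z + t) q (z - t • ey) = Φ (T q z) q z := by rw [Φadd, h1]
    rw [hΩ q (z - t • ey) (T q z + t) (by rw [h3]; linarith [hT q z (T q z) le_rfl]), h3, add_smul]
    show _ = Φ (T q z) q z - T q z • ey - t • ey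
    abel
  have hpxΩ : ∀ q z, px (Ω q z) = f q z := by
    intro q z
    have h1 := hT q z (T q z) le_rfl
    have h2 : R ≤ ‖Φ (T q z) q z‖ := by
      have h3 := abs_py_le (Φ (T q z) q z)
      have h4 := le_abs_self (py (Φ (T q z) q z))
      linarith
    have h5 := h.out_f q _ h2
    rw [hcons] at h5
    show px (Φ (T q z) q z - T q z • ey) = f q z
    rw [h5]
    simp
  -- the displacement
  obtain ⟨M, hM0, hM⟩ := bdd_on (G := fun p : Q × E (n + 1) => py (Ω p.1 p.2) - py p.2)
    ((py.continuous.comp hΩs.continuous).sub (py.continuous.comp continuous_snd)) hC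
    (R := R') (by linarith) (fun q z hz => by
      show py (Ω q z) - py z = 0
      rw [hout q z hz.out, sub_self])
    (fun q z t hz ht => by
      show py (Ω q (z - t • ey)) - py (z - t • ey) = py (Ω q z) - py z
      rw [hleftΩ q z t hz.le ht]
      simp)
  have hmove : ∀ q z, |py (Ω q z) - py z| ≤ M := by
    intro q z
    obtain ⟨q', hq', hqq⟩ := hK q
    have h1 : Ω q = Ω q' := unique_of_px (hΩsymp q) (hΩsymp q') (R := R')
      (fun z hz => hout q z (Or.inl hz)) (fun z hz => hout q' z (Or.inl hz))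
      (fun z => by rw [hpxΩ, hpxΩ, hqq])
    rw [h1]
    exact hM q' hq' z
  refine ⟨max R' M, Ω, le_trans (by linarith) (le_max_left _ _),
    ⟨hΩs, hΩsymp, fun q z hz => hout q z (hz.mono (le_max_left _ _)),
      fun q z t hz ht => hleftΩ q z t (by linarith [le_max_left R' M]) ht,
      fun q z => (hmove q z).trans (le_max_right _ _)⟩, hpxΩ, ?_,
    fun q z => ⟨fun t => Φ t q z, fun t => Φd q z t, Φ0 q z⟩⟩
  -- orbits
  intro q γ hγ t
  have h1 : ∀ t, γ t = Φ t q (γ 0) := Φu' q γ hγ
  rw [h1 t]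
  set z := γ 0 with hz
  set a := T q (Φ t q z) with ha
  set b := max (T q z) (a + t) with hb
  have h2 : R' ≤ py (Φ b q z) := by linarith [hT q z b (le_max_left _ _)]
  have h3 : Φ (b - t) q (Φ t q z) = Φ b q z := by rw [← Φadd, sub_add_cancel]
  rw [hΩ q z b h2, hΩ q (Φ t q z) (b - t) (by rw [h3]; exact h2), h3, sub_smul]
  abel

end Pool.Agent.H84.NT
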